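import Mathlib
import Pool.Agent.R739.RD.Win
import Pool.Agent.R544.PQ.Conf

/-!
# Bad times: definitions and statements
-/

set_option autoImplicit false

namespace Pool.Agent.R739.RM

open Finset Filter Topology Pool.Agent.R739.RD

/-- the top exponent of `T`: `b ^ top ≤ |T| < b ^ (top + 1)` -/
noncomputable def top (b : ℕ) (T : ℝ) : ℤ := Int.log b |T|

/-- below its top `D` digits the number `T = lam * α ^ n` has a block of about `l` digits all equal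
to `0` or all equal to `b - 1` -/
def Bad (α : ℝ) (b : ℕ) (lam : ℝ) (D l n : ℕ) : Prop :=
  dz (lam * α ^ n / (b : ℝ) ^ (top b (lam * α ^ n) - D)) ≤ ((b : ℝ) ^ l)⁻¹

open Classical in
/-- bad times are sparse -/
def Sparse (α : ℝ) (b : ℕ) : Prop :=
  ∀ ε : ℝ, 0 < ε → ∀ D : ℕ, 1 ≤ D → ∃ l : ℕ, ∀ lam : ℝ, lam ≠ 0 → ∃ C : ℝ, ∀ N : ℕ,
    ((((Ioc 0 N).filter (fun n => Bad α b lam D l n)).card : ℕ) : ℝ) ≤ ε * N + C

/-- subtask SPI -/
def STM_SPI : Prop := ∀ (α : ℝ), 1 < α → (∀ s : ℕ, 1 ≤ s → Irrational (α ^ s)) →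
  ∀ b : ℕ, 2 ≤ b → Sparse α b

/-- equidistribution modulo one -/
def Equi (u : ℕ → ℝ) : Prop := ∀ a b : ℝ, 0 ≤ a → a < b → b ≤ 1 →
  Tendsto (fun N : ℕ => (((Icc 1 N).filter
    (fun n : ℕ => a ≤ Int.fract (u n) ∧ Int.fract (u n) < b)).card : ℝ) / (N : ℝ)) atTop
    (𝓝 (b - a))

open Classical Pool.Agent.H429R2.Auto Pool.Agent.R544.PQ in
/-- subtask CA: if the fractional parts are equidistributed, then every word of `L` letters is shown
at the position `j` by `F^n (conf β)` with frequency exactly `6 ^ (-L)` -/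
def STM_CA : Prop := ∀ (β : ℝ), 0 ≤ β → ∀ j : ℤ,
  Equi (fun n => (6 : ℝ) ^ (j - 1) * ((3 / 2) ^ n * β)) → ∀ (L : ℕ) (w : Fin L → Fin 6),
    Tendsto (fun N : ℕ => (((Icc 1 N).filter
      (fun n : ℕ => Shows (F^[n] (conf β)) w j)).card : ℝ) / (N : ℝ)) atTop
      (𝓝 (1 / 6 ^ L))

open Pool.Agent.H429R2.Auto Pool.Agent.R544.PQ in
/-- subtask CB: the digits of `∑ x_i 6^(-i)` are the `x_i` -/
def STM_CB : Prop := ∀ (x : ℤ → Fin 6) (i0 : ℤ), (∀ i < i0, x i = 0) →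
  (∀ m : ℤ, ∃ i : ℤ, m ≤ i ∧ x i ≠ 5) →
    x = conf (∑' k : ℕ, ((x (i0 + k) : ℕ) : ℝ) / (6 : ℝ) ^ (i0 + k))

end Pool.Agent.R739.RM
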