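import Mathlib
import Pool.Agent.R739.RM.Defs

/-!
# Bad times are sparse for rational bases; most times have many good positions
-/

set_option autoImplicit false

namespace Pool.Agent.R739.RM

open Finset Filter Topology Pool.Agent.R739.RD

lemma top_le (b : ℕ) (hb : 2 ≤ b) (T : ℝ) (hT : T ≠ 0) : (b : ℝ) ^ top b T ≤ |T| :=
  Int.zpow_log_le_self (by omega) (abs_pos.2 hT)

lemma lt_top (b : ℕ) (hb : 2 ≤ b) (T : ℝ) : |T| < (b : ℝ) ^ (top b T + 1) :=
  Int.lt_zpow_succ_log_self (by omega) _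

lemma repr (b : ℕ) (hb : 2 ≤ b) (T : ℝ) (hT : T ≠ 0) (D l : ℕ) (hD : 1 ≤ D)
    (h : dz (T / (b : ℝ) ^ (top b T - D)) ≤ ((b : ℝ) ^ l)⁻¹) :
    ∃ (P : ℤ) (θ : ℝ), T = (b : ℝ) ^ (top b T - D) * (P + θ) ∧ |θ| ≤ ((b : ℝ) ^ l)⁻¹ ∧ P ≠ 0 ∧
      |(P : ℝ)| ≤ (b : ℝ) ^ (D + 1) + 1 := by
  have hb2 : (2 : ℝ) ≤ b := by exact_mod_cast hb
  have hb0 : (0 : ℝ) < b := by linarith
  set x : ℝ := T / (b : ℝ) ^ (top b T - D) with hx
  have hW : (0 : ℝ) < (b : ℝ) ^ (top b T - D) := by positivity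
  have h1 : |x| = |T| / (b : ℝ) ^ (top b T - D) := by
    rw [hx, abs_div, abs_of_pos hW]
  have h2 : (b : ℝ) ^ D ≤ |x| := by
    rw [h1, le_div_iff₀ hW]
    refine le_trans (le_of_eq ?_) (top_le b hb T hT)
    rw [← zpow_natCast, ← zpow_add₀ hb0.ne']
    congr 1
    ring
  have h3 : |x| < (b : ℝ) ^ (D + 1) := by
    rw [h1, div_lt_iff₀ hW]
    refine lt_of_lt_of_eq (lt_top b hb T) ?_
    rw [← zpow_natCast, ← zpow_add₀ hb0.ne']
    congr 1
    push_cast
    ring
  have h4 : |x - round x| ≤ 1 / 2 := abs_sub_round x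
  have h5 : (2 : ℝ) ≤ (b : ℝ) ^ D := by
    calc (2 : ℝ) ≤ b := hb2
      _ = (b : ℝ) ^ 1 := (pow_one _).symm
      _ ≤ (b : ℝ) ^ D := pow_le_pow_right₀ (by linarith) hD
  refine ⟨round x, x - round x, ?_, h, ?_, ?_⟩
  · rw [add_sub_cancel, hx]
    field_simp
  · intro h0
    rw [h0, Int.cast_zero, sub_zero] at h4
    linarith
  · have h6 : |((round x : ℤ) : ℝ)| ≤ |x| + |x - round x| := by
      have : ((round x : ℤ) : ℝ) = x - (x - round x) := by ring
      calc |((round x : ℤ) : ℝ)| = |x - (x - round x)| := by rw [← this]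
        _ ≤ |x| + |x - round x| := abs_sub _ _
    linarith

lemma count_blocks (B : ℕ → Prop) [DecidablePred B] (S s0 : ℕ) (hs0 : 1 ≤ s0)
    (h : ∀ n s, 1 ≤ s → s ≤ S → B n → B (n + s) → s < s0) (K : ℕ) :
    ((Ioc 0 (K * S)).filter B).card ≤ K * s0 := by
  induction K with
  | zero => simp
  | succ K ih =>
    have hsplit : (Ioc 0 ((K + 1) * S)).filter B =
        (Ioc 0 (K * S)).filter B ∪ (Ioc (K * S) ((K + 1) * S)).filter B := by
      rw [← filter_union]
      congr 1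
      ext n
      simp only [mem_union, mem_Ioc]
      have : K * S ≤ (K + 1) * S := Nat.mul_le_mul_right S (by omega)
      omega
    have hblk : ((Ioc (K * S) ((K + 1) * S)).filter B).card ≤ s0 := by
      rcases ((Ioc (K * S) ((K + 1) * S)).filter B).eq_empty_or_nonempty with he | hne
      · rw [he]; simp
      · set m := ((Ioc (K * S) ((K + 1) * S)).filter B).min' hne with hm
        have hmem := min'_mem _ hne
        rw [← hm, mem_filter, mem_Ioc] at hmem
        have hsub : (Ioc (K * S) ((K + 1) * S)).filter B ⊆ Ico m (m + s0) := by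
          intro n hn
          have hmn := min'_le _ n hn
          rw [← hm] at hmn
          rw [mem_filter, mem_Ioc] at hn
          rw [mem_Ico]
          refine ⟨hmn, ?_⟩
          rcases Nat.eq_or_lt_of_le hmn with he | hlt
          · omega
          · obtain ⟨s, hs⟩ := Nat.exists_eq_add_of_lt hlt
            have h1 : n = m + (s + 1) := by omega
            have h2 : s + 1 ≤ S := by
              have e : (K + 1) * S = K * S + S := by ring
              omega
            have := h m (s + 1) (by omega) h2 hmem.2 (h1 ▸ hn.2)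
            omega
        calc _ ≤ (Ico m (m + s0)).card := card_le_card hsub
          _ = s0 := by simp
    rw [hsplit]
    calc _ ≤ _ := card_union_le _ _
      _ ≤ K * s0 + s0 := add_le_add ih hblk
      _ = (K + 1) * s0 := by ring

lemma count_real (B : ℕ → Prop) [DecidablePred B] (S s0 : ℕ) (hS : 1 ≤ S) (hs0 : 1 ≤ s0)
    (h : ∀ n s, 1 ≤ s → s ≤ S → B n → B (n + s) → s < s0) (N : ℕ) :
    (((Ioc 0 N).filter B).card : ℝ) ≤ s0 / S * N + s0 := by
  have h1 := count_blocks B S s0 hs0 h (N / S + 1)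
  have h2 : N ≤ (N / S + 1) * S := by
    have := Nat.div_add_mod N S
    have := Nat.mod_lt N hS
    have e : (N / S + 1) * S = S * (N / S) + S := by ring
    omega
  have h3 : ((Ioc 0 N).filter B).card ≤ (N / S + 1) * s0 := by
    refine le_trans (card_le_card ?_) h1
    apply filter_subset_filter
    exact Ioc_subset_Ioc_right h2
  have h4 : (((N / S : ℕ)) : ℝ) ≤ (N : ℝ) / S := Nat.cast_div_le
  have h5 : (((Ioc 0 N).filter B).card : ℝ) ≤ (((N / S : ℕ)) + 1) * s0 := by exact_mod_cast h3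
  have h6 : (0 : ℝ) ≤ s0 := Nat.cast_nonneg _
  calc _ ≤ (((N / S : ℕ)) + 1) * (s0 : ℝ) := h5
    _ ≤ ((N : ℝ) / S + 1) * s0 := by gcongr
    _ = _ := by ring

/-- rational bases -/
theorem sparse_rat (p q : ℕ) (hq : 2 ≤ q) (hpq : q < p) (hc : Nat.Coprime p q) (b : ℕ)
    (hb : 2 ≤ b) : Sparse ((p : ℝ) / q) b := by
  classical
  intro ε hε D hD
  have hb2 : (2 : ℝ) ≤ b := by exact_mod_cast hb
  have hb0 : (0 : ℝ) < b := by linarith
  have hq0 : (0 : ℝ) < q := by
    have : 0 < q := by omega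
    exact_mod_cast this
  have hp0 : (0 : ℝ) < p := by
    have : 0 < p := by omega
    exact_mod_cast this
  have hp1 : (1 : ℝ) ≤ p := by
    have : 1 ≤ p := by omega
    exact_mod_cast this
  have hα : 1 < (p : ℝ) / q := by
    rw [one_lt_div hq0]
    exact_mod_cast hpq
  set s0 : ℕ := b ^ (D + 1) + 2 with hs0
  obtain ⟨S, hS⟩ := exists_nat_ge ((s0 : ℝ) / ε + 1)
  have hs00 : (0 : ℝ) < s0 := by
    have : 0 < s0 := by omega
    exact_mod_cast this
  have hS1' : (1 : ℝ) ≤ S := by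
    have : 0 < (s0 : ℝ) / ε := by positivity
    linarith
  have hS1 : 1 ≤ S := by exact_mod_cast hS1'
  obtain ⟨l, hl⟩ := pow_unbounded_of_one_lt ((p : ℝ) ^ S * (1 + b)) (by linarith : (1 : ℝ) < b)
  refine ⟨l, fun lam hlam => ⟨s0, fun N => ?_⟩⟩
  refine (count_real (fun n => Bad ((p : ℝ) / q) b lam D l n) S s0 hS1 (by omega) ?_ N).trans ?_
  · intro n s hs1 hsS hn hns
    by_contra hcon
    push Not at hcon
    set T : ℝ := lam * ((p : ℝ) / q) ^ n with hT
    have hT0 : T ≠ 0 := by rw [hT]; positivity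
    have hT' : lam * ((p : ℝ) / q) ^ (n + s) = ((p : ℝ) / q) ^ s * T := by
      rw [hT, pow_add]; ring
    have hT0' : ((p : ℝ) / q) ^ s * T ≠ 0 := by positivity
    unfold Bad at hn hns
    rw [← hT] at hn
    rw [hT'] at hns
    set T' : ℝ := ((p : ℝ) / q) ^ s * T with hTT
    obtain ⟨P, θ, h1, h2, h3, h4⟩ := repr b hb T hT0 D l hD hn
    obtain ⟨P', θ', h1', h2', h3', h4'⟩ := repr b hb T' hT0' D l hD hns
    have habs : |T'| = ((p : ℝ) / q) ^ s * |T| := by
      rw [hTT, abs_mul, abs_of_pos (by positivity)]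
    have hTpos : 0 < |T| := abs_pos.2 hT0
    have hle : |T| ≤ |T'| := by
      rw [habs]
      exact le_mul_of_one_le_left hTpos.le (one_le_pow₀ hα.le)
    have hu : top b T ≤ top b T' := Int.log_mono_right hTpos hle
    obtain ⟨u, hu⟩ := Int.eq_ofNat_of_zero_le (sub_nonneg.2 hu)
    have hub : (b : ℝ) ^ u < ((p : ℝ) / q) ^ s * b := by
      have h5 := top_le b hb T' hT0'
      rw [habs] at h5
      have h6 := lt_top b hb T
      have e : top b T' = (u : ℤ) + top b T := by omega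
      rw [e, zpow_add₀ hb0.ne', zpow_natCast] at h5
      rw [zpow_add_one₀ hb0.ne'] at h6
      have h7 : (0 : ℝ) < (b : ℝ) ^ top b T := by positivity
      have h8 : (b : ℝ) ^ u * (b : ℝ) ^ top b T < (((p : ℝ) / q) ^ s * b) * (b : ℝ) ^ top b T := by
        calc _ ≤ ((p : ℝ) / q) ^ s * |T| := h5
          _ < ((p : ℝ) / q) ^ s * ((b : ℝ) ^ top b T * b) :=
            mul_lt_mul_of_pos_left h6 (by positivity)
          _ = _ := by ring
      exact lt_of_mul_lt_mul_right h8 h7.le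
    -- the relation between `P` and `P'`
    have hrel : (p : ℝ) ^ s * (P + θ) = (q : ℝ) ^ s * (b : ℝ) ^ u * (P' + θ') := by
      have e : top b T' - D = (u : ℤ) + (top b T - D) := by omega
      have h5 : ((p : ℝ) / q) ^ s * ((b : ℝ) ^ (top b T - D) * (P + θ)) =
          (b : ℝ) ^ u * (b : ℝ) ^ (top b T - D) * (P' + θ') := by
        rw [← h1, ← hTT]
        conv_lhs => rw [h1', e, zpow_add₀ hb0.ne', zpow_natCast]
      have h6 : (0 : ℝ) < (b : ℝ) ^ (top b T - D) := by positivity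
      have h7 : (b : ℝ) ^ (top b T - D) * (((p : ℝ) / q) ^ s * (P + θ)) =
          (b : ℝ) ^ (top b T - D) * ((b : ℝ) ^ u * (P' + θ')) := by linear_combination h5
      have h8 := mul_left_cancel₀ h6.ne' h7
      rw [div_pow, div_mul_eq_mul_div, div_eq_iff (by positivity)] at h8
      linear_combination h8
    have hqb : (q : ℝ) ^ s * (b : ℝ) ^ u ≤ (p : ℝ) ^ s * b := by
      have : (q : ℝ) ^ s * (b : ℝ) ^ u ≤ (q : ℝ) ^ s * (((p : ℝ) / q) ^ s * b) :=
        mul_le_mul_of_nonneg_left hub.le (by positivity)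
      refine this.trans (le_of_eq ?_)
      rw [div_pow]
      field_simp
    have hps : (p : ℝ) ^ s ≤ (p : ℝ) ^ S := pow_le_pow_right₀ hp1 hsS
    have hbl : (0 : ℝ) < (b : ℝ) ^ l := by positivity
    have hint : |(((p : ℤ) ^ s * P - (q : ℤ) ^ s * (b : ℤ) ^ u * P' : ℤ) : ℝ)| < 1 := by
      push_cast
      have e : (p : ℝ) ^ s * P - (q : ℝ) ^ s * (b : ℝ) ^ u * P' =
          (q : ℝ) ^ s * (b : ℝ) ^ u * θ' - (p : ℝ) ^ s * θ := by linear_combination hrel
      rw [e]
      have h5 : |(q : ℝ) ^ s * (b : ℝ) ^ u * θ' - (p : ℝ) ^ s * θ| ≤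
          (q : ℝ) ^ s * (b : ℝ) ^ u * |θ'| + (p : ℝ) ^ s * |θ| := by
        refine (abs_sub _ _).trans (le_of_eq ?_)
        rw [abs_mul ((q : ℝ) ^ s * (b : ℝ) ^ u) θ', abs_mul ((p : ℝ) ^ s) θ,
          abs_of_pos (by positivity : (0 : ℝ) < (q : ℝ) ^ s * (b : ℝ) ^ u),
          abs_of_pos (by positivity : (0 : ℝ) < (p : ℝ) ^ s)]
      have h6 : (q : ℝ) ^ s * (b : ℝ) ^ u * |θ'| ≤ ((p : ℝ) ^ S * b) * ((b : ℝ) ^ l)⁻¹ :=
        mul_le_mul (hqb.trans (mul_le_mul_of_nonneg_right hps hb0.le)) h2' (abs_nonneg _)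
          (by positivity)
      have h7 : (p : ℝ) ^ s * |θ| ≤ (p : ℝ) ^ S * ((b : ℝ) ^ l)⁻¹ :=
        mul_le_mul hps h2 (abs_nonneg _) (by positivity)
      have h8 : ((p : ℝ) ^ S * (1 + b)) * ((b : ℝ) ^ l)⁻¹ < 1 := by
        rw [mul_inv_lt_iff₀ hbl, one_mul]
        exact hl
      calc _ ≤ _ := h5
        _ ≤ ((p : ℝ) ^ S * b) * ((b : ℝ) ^ l)⁻¹ + (p : ℝ) ^ S * ((b : ℝ) ^ l)⁻¹ := add_le_add h6 h7
        _ = ((p : ℝ) ^ S * (1 + b)) * ((b : ℝ) ^ l)⁻¹ := by ring
        _ < 1 := h8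
    have hzero : (p : ℤ) ^ s * P - (q : ℤ) ^ s * (b : ℤ) ^ u * P' = 0 := by
      rw [← Int.cast_abs] at hint
      have : |(p : ℤ) ^ s * P - (q : ℤ) ^ s * (b : ℤ) ^ u * P'| < 1 := by exact_mod_cast hint
      exact Int.abs_lt_one_iff.1 this
    have hdvd : (q : ℤ) ^ s ∣ (p : ℤ) ^ s * P :=
      ⟨(b : ℤ) ^ u * P', by linear_combination hzero⟩
    have hcop : IsCoprime ((q : ℤ) ^ s) ((p : ℤ) ^ s) :=
      (Nat.isCoprime_iff_coprime.2 hc.symm).pow
    have hdP : (q : ℤ) ^ s ∣ P := hcop.dvd_of_dvd_mul_left hdvd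
    have hle2 : (q : ℤ) ^ s ≤ |P| := Int.le_of_dvd (abs_pos.2 h3) ((dvd_abs _ _).2 hdP)
    have h5 : |P| ≤ (b : ℤ) ^ (D + 1) + 1 := by
      have : ((|P| : ℤ) : ℝ) ≤ (((b : ℤ) ^ (D + 1) + 1 : ℤ) : ℝ) := by
        push_cast
        exact h4
      exact_mod_cast this
    have h6 : (s : ℤ) < (q : ℤ) ^ s := by
      have h7 : s < 2 ^ s := Nat.lt_two_pow_self
      have h8 : 2 ^ s ≤ q ^ s := Nat.pow_le_pow_left hq s
      exact_mod_cast h7.trans_le h8
    have h7 : ((b ^ (D + 1) + 2 : ℕ) : ℤ) ≤ s := by exact_mod_cast hcon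
    push_cast at h7
    omega
  · have h1 : (s0 : ℝ) / S ≤ ε := by
      rw [div_le_iff₀ (by linarith)]
      have : (s0 : ℝ) / ε ≤ S := by linarith
      rwa [div_le_iff₀ hε, mul_comm] at this
    have := mul_le_mul_of_nonneg_right h1 (Nat.cast_nonneg (α := ℝ) N)
    linarith

/-- the good positions among the top `G + 1` ones -/
noncomputable def good (b : ℕ) (T : ℝ) (G : ℕ) : Finset ℤ := by
  classical
  exact (Icc (top b T - G) (top b T)).filter fun e => 1 / (2 * (b : ℝ)) ≤ dz (T / (b : ℝ) ^ e)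

lemma mem_good (b : ℕ) (T : ℝ) (G : ℕ) (e : ℤ) : e ∈ good b T G ↔
    (top b T - G ≤ e ∧ e ≤ top b T) ∧ 1 / (2 * (b : ℝ)) ≤ dz (T / (b : ℝ) ^ e) := by
  unfold good
  rw [mem_filter, mem_Icc]

theorem good_count (α : ℝ) (b : ℕ) (hb : 2 ≤ b) (hS : Sparse α b) (lam : ℝ)
    (hlam : lam ≠ 0) (g : ℕ) : ∀ ε : ℝ, 0 < ε → ∃ (G : ℕ) (C : ℝ), ∀ N : ℕ,
      (((Ioc 0 N).filter (fun n => (good b (lam * α ^ n) G).card < g)).card : ℝ) ≤ ε * N + C := by
  classical
  have hb2 : (2 : ℝ) ≤ b := by exact_mod_cast hb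
  have hb0 : (0 : ℝ) < b := by linarith
  induction g with
  | zero =>
    intro ε hε
    refine ⟨0, 0, fun N => ?_⟩
    simp only [not_lt_zero, filter_false, card_empty, CharP.cast_eq_zero, add_zero]
    positivity
  | succ g ih =>
    intro ε hε
    obtain ⟨G, C, hG⟩ := ih (ε / 2) (by positivity)
    obtain ⟨l, hl⟩ := hS (ε / 2) (by positivity) (G + 1) (by omega)
    obtain ⟨C', hC'⟩ := hl lam hlam
    refine ⟨G + 1 + l, C + C', fun N => ?_⟩
    have hsub : (Ioc 0 N).filter (fun n => (good b (lam * α ^ n) (G + 1 + l)).card < g + 1) ⊆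
        (Ioc 0 N).filter (fun n => (good b (lam * α ^ n) G).card < g) ∪
        (Ioc 0 N).filter (fun n => Bad α b lam (G + 1) l n) := by
      intro n hn
      rw [mem_filter] at hn
      rw [mem_union, mem_filter, mem_filter]
      by_contra hcon
      push Not at hcon
      obtain ⟨h1, h2⟩ := hcon
      have h1 := h1 hn.1
      have h2 := h2 hn.1
      set T : ℝ := lam * α ^ n with hT
      have h3 : ∃ i : ℕ, i < l + 1 ∧
          1 / (2 * (b : ℝ)) ≤ dz ((b : ℝ) ^ i * (T / (b : ℝ) ^ (top b T - (G + 1 : ℕ)))) := by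
        by_contra hno
        push Not at hno
        apply h2
        have h4 := win b hb (l + 1) (by omega) _ hno
        unfold Bad
        rw [← hT]
        refine h4.le.trans ?_
        rw [one_div]
        apply inv_anti₀ (by positivity)
        have h5 : (b : ℝ) ^ l ≤ (b : ℝ) ^ (l + 1) := pow_le_pow_right₀ (by linarith) (by omega)
        have h6 : 0 < (b : ℝ) ^ (l + 1) := by positivity
        linarith
      obtain ⟨i, hi, hi2⟩ := h3
      have e1 : (b : ℝ) ^ i * (T / (b : ℝ) ^ (top b T - (G + 1 : ℕ))) =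
          T / (b : ℝ) ^ (top b T - (G + 1 : ℕ) - i) := by
        rw [zpow_sub₀ hb0.ne' (top b T - (G + 1 : ℕ)) i, zpow_natCast]
        field_simp
      rw [e1] at hi2
      have hnew : top b T - (G + 1 : ℕ) - i ∉ good b T G := by
        rw [mem_good]
        push Not
        intro h
        push_cast at h
        omega
      have hsub2 : insert (top b T - (G + 1 : ℕ) - i) (good b T G) ⊆
          good b T (G + 1 + l) := by
        intro e he
        rw [mem_insert] at he
        rw [mem_good]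
        rcases he with rfl | he
        · refine ⟨⟨?_, ?_⟩, hi2⟩
          · push_cast; omega
          · push_cast; omega
        · rw [mem_good] at he
          refine ⟨⟨?_, he.1.2⟩, he.2⟩
          push_cast
          omega
      have hcard := card_le_card hsub2
      rw [card_insert_of_notMem hnew] at hcard
      omega
    have h1 : (((Ioc 0 N).filter
        (fun n => (good b (lam * α ^ n) (G + 1 + l)).card < g + 1)).card : ℝ) ≤
        (((Ioc 0 N).filter (fun n => (good b (lam * α ^ n) G).card < g)).card : ℝ) +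
        (((Ioc 0 N).filter (fun n => Bad α b lam (G + 1) l n)).card : ℝ) := by
      exact_mod_cast (card_le_card hsub).trans (card_union_le _ _)
    have h2 := hG N
    have h3 := hC' N
    have h4 : (((Ioc 0 N).filter (fun n => Bad α b lam (G + 1) l n)).card : ℝ) ≤
        ε / 2 * N + C' := by
      convert h3
    linarith

end Pool.Agent.R739.RM
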