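import Mathlib
import Pool.Agent.R739.RM.Cnt
import Pool.Agent.R739.RD.AE

/-!
# A law of large numbers
-/

set_option autoImplicit false

open Finset Filter Topology MeasureTheory ProbabilityTheory
open scoped Real

namespace Pool.Agent.R739.RM

open Pool.Agent.R739.RD Pool.Agent.H534R3.UDist

/-- bounded variables, uncorrelated at distances `≥ K0` -/
lemma second {Ω : Type} [MeasurableSpace Ω] (P : Measure Ω) [IsProbabilityMeasure P]
    (V : ℕ → Ω → ℂ) (hV : ∀ n, Measurable (V n)) (h2 : ∀ n ω, ‖V n ω‖ ≤ 2) (K0 : ℕ)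
    (horth : ∀ m n, m + K0 ≤ n → ∫ ω, V n ω * (starRingEnd ℂ) (V m ω) ∂P = 0) (N : ℕ) :
    ∫ ω, ‖∑ n ∈ Icc 1 N, V n ω‖ ^ 2 ∂P ≤ 8 * K0 * N := by
  have hint : ∀ m n, Integrable (fun ω => V n ω * (starRingEnd ℂ) (V m ω)) P := by
    intro m n
    refine Integrable.of_bound (((hV n).mul (Complex.continuous_conj.measurable.comp
      (hV m)))).aestronglyMeasurable 4 (Eventually.of_forall fun ω => ?_)
    rw [norm_mul, Complex.norm_conj]
    have h3 := h2 n ω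
    have h4 := h2 m ω
    have h5 := norm_nonneg (V n ω)
    have h6 := norm_nonneg (V m ω)
    nlinarith
  have e1 : ∀ ω, ((‖∑ n ∈ Icc 1 N, V n ω‖ ^ 2 : ℝ) : ℂ) =
      ∑ m ∈ Icc 1 N, ∑ n ∈ Icc 1 N, V n ω * (starRingEnd ℂ) (V m ω) := by
    intro ω
    have h1 : ((‖∑ n ∈ Icc 1 N, V n ω‖ ^ 2 : ℝ) : ℂ) =
        (∑ n ∈ Icc 1 N, V n ω) * (starRingEnd ℂ) (∑ n ∈ Icc 1 N, V n ω) := by
      rw [Complex.mul_conj, Complex.normSq_eq_norm_sq]
    rw [h1, mul_comm, map_sum, sum_mul]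
    refine sum_congr rfl fun m _ => ?_
    rw [mul_sum]
    refine sum_congr rfl fun n _ => ?_
    rw [mul_comm]
  have e2 : ((∫ ω, ‖∑ n ∈ Icc 1 N, V n ω‖ ^ 2 ∂P : ℝ) : ℂ) =
      ∑ m ∈ Icc 1 N, ∑ n ∈ Icc 1 N, ∫ ω, V n ω * (starRingEnd ℂ) (V m ω) ∂P := by
    rw [← integral_complex_ofReal]
    simp only [e1]
    rw [integral_finsetSum _ fun m _ => integrable_finsetSum _ fun n _ => hint m n]
    refine sum_congr rfl fun m _ => ?_
    rw [integral_finsetSum _ fun n _ => hint m n]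
  have h3 : ∫ ω, ‖∑ n ∈ Icc 1 N, V n ω‖ ^ 2 ∂P ≤
      ∑ m ∈ Icc 1 N, ∑ n ∈ Icc 1 N, ‖∫ ω, V n ω * (starRingEnd ℂ) (V m ω) ∂P‖ := by
    have h0 : 0 ≤ ∫ ω, ‖∑ n ∈ Icc 1 N, V n ω‖ ^ 2 ∂P := integral_nonneg fun ω => sq_nonneg _
    calc ∫ ω, ‖∑ n ∈ Icc 1 N, V n ω‖ ^ 2 ∂P =
          ‖((∫ ω, ‖∑ n ∈ Icc 1 N, V n ω‖ ^ 2 ∂P : ℝ) : ℂ)‖ := by
            rw [Complex.norm_real, Real.norm_eq_abs, abs_of_nonneg h0]
      _ = ‖∑ m ∈ Icc 1 N, ∑ n ∈ Icc 1 N, ∫ ω, V n ω * (starRingEnd ℂ) (V m ω) ∂P‖ := by rw [e2]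
      _ ≤ _ := (norm_sum_le _ _).trans (sum_le_sum fun m _ => norm_sum_le _ _)
  refine h3.trans ?_
  have h4 : ∀ m ∈ Icc 1 N, ∑ n ∈ Icc 1 N, ‖∫ ω, V n ω * (starRingEnd ℂ) (V m ω) ∂P‖ ≤
      8 * K0 := by
    intro m _
    have h5 : ∀ n ∈ Icc 1 N, ‖∫ ω, V n ω * (starRingEnd ℂ) (V m ω) ∂P‖ ≤
        if n ∈ Ico (m + 1 - K0) (m + K0) then 4 else 0 := by
      intro n _
      split_ifs with hn
      · have := norm_integral_le_of_norm_le_const (μ := P)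
          (f := fun ω => V n ω * (starRingEnd ℂ) (V m ω)) (C := 4)
          (Eventually.of_forall fun ω => by
            rw [norm_mul, Complex.norm_conj]
            have h3 := h2 n ω
            have h4 := h2 m ω
            have h5 := norm_nonneg (V n ω)
            have h6 := norm_nonneg (V m ω)
            nlinarith)
        simpa using this
      · rw [mem_Ico] at hn
        rcases Nat.lt_or_ge n (m + K0) with h | h
        · have h7 : n + K0 ≤ m := by omega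
          have h8 := horth n m h7
          have h9 : ∫ ω, V n ω * (starRingEnd ℂ) (V m ω) ∂P =
              (starRingEnd ℂ) (∫ ω, V m ω * (starRingEnd ℂ) (V n ω) ∂P) := by
            rw [← integral_conj]
            refine integral_congr_ae (Eventually.of_forall fun ω => ?_)
            simp only [map_mul, Complex.conj_conj]
            ring
          rw [h9, h8]
          simp
        · rw [horth m n h]
          simp
    refine (sum_le_sum h5).trans ?_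
    rw [← sum_filter, sum_const, nsmul_eq_mul]
    have h6 : ((Icc 1 N).filter (fun n => n ∈ Ico (m + 1 - K0) (m + K0))).card ≤ 2 * K0 := by
      refine (card_le_card (fun n hn => (mem_filter.1 hn).2)).trans ?_
      rw [Nat.card_Ico]
      omega
    have h7 : (((Icc 1 N).filter (fun n => n ∈ Ico (m + 1 - K0) (m + K0))).card : ℝ) ≤
      2 * K0 := by exact_mod_cast h6
    linarith
  refine (sum_le_sum h4).trans (le_of_eq ?_)
  rw [sum_const, Nat.card_Icc, nsmul_eq_mul]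
  simp
  ring

/-- the law of large numbers -/
theorem lln {Ω : Type} [MeasurableSpace Ω] (P : Measure Ω) [IsProbabilityMeasure P]
    (V : ℕ → Ω → ℂ) (hV : ∀ n, Measurable (V n)) (h2 : ∀ n ω, ‖V n ω‖ ≤ 2) (K0 : ℕ)
    (horth : ∀ m n, m + K0 ≤ n → ∫ ω, V n ω * (starRingEnd ℂ) (V m ω) ∂P = 0) :
    ∀ᵐ ω ∂P, Tendsto (fun N : ℕ => ‖∑ n ∈ Icc 1 N, V n ω‖ / N) atTop (𝓝 0) := by
  have hSm : ∀ N, Measurable fun ω => ∑ n ∈ Icc 1 N, V n ω := fun N =>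
    Finset.measurable_fun_sum _ fun n _ => hV n
  have hS2 : ∀ N ω, ‖∑ n ∈ Icc 1 N, V n ω‖ ≤ 2 * N := by
    intro N ω
    refine (norm_sum_le _ _).trans ?_
    calc ∑ n ∈ Icc 1 N, ‖V n ω‖ ≤ ∑ n ∈ Icc 1 N, (2 : ℝ) := sum_le_sum fun n _ => h2 n ω
      _ = 2 * N := by simp [mul_comm]
  have key : ∀ᵐ ω ∂P, Tendsto (fun i : ℕ =>
      ‖∑ n ∈ Icc 1 ((i + 1) ^ 2), V n ω‖ / ((i + 1 : ℕ) : ℝ) ^ 2) atTop (𝓝 0) := by
    refine ae_tendsto_zero (fun (i : ℕ) ω =>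
      ‖∑ n ∈ Icc 1 ((i + 1) ^ 2), V n ω‖ / ((i + 1 : ℕ) : ℝ) ^ 2)
      (fun i => (hSm _).norm.div_const _) (fun i => ?_) ?_
    · refine Integrable.of_bound (((hSm _).norm.div_const _).pow_const 2).aestronglyMeasurable 4
        (Eventually.of_forall fun ω => ?_)
      have h0 : (0 : ℝ) < ((i + 1 : ℕ) : ℝ) ^ 2 := by positivity
      have h1 := hS2 ((i + 1) ^ 2) ω
      have h3 : ‖∑ n ∈ Icc 1 ((i + 1) ^ 2), V n ω‖ / ((i + 1 : ℕ) : ℝ) ^ 2 ≤ 2 := by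
        rw [div_le_iff₀ h0]
        exact_mod_cast h1
      have h4 : 0 ≤ ‖∑ n ∈ Icc 1 ((i + 1) ^ 2), V n ω‖ / ((i + 1 : ℕ) : ℝ) ^ 2 := by positivity
      rw [Real.norm_eq_abs, abs_of_nonneg (by positivity)]
      nlinarith
    · have hsum : Summable (fun i : ℕ => 8 * (K0 : ℝ) * (1 / ((i + 1 : ℕ) : ℝ) ^ 2)) := by
        have h3 : Summable (fun n : ℕ => 8 * (K0 : ℝ) * (1 / (n : ℝ) ^ 2)) :=
          (Real.summable_one_div_nat_pow.mpr one_lt_two).mul_left _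
        exact (summable_nat_add_iff (f := fun n : ℕ => 8 * (K0 : ℝ) * (1 / (n : ℝ) ^ 2)) 1).mpr h3
      refine Summable.of_nonneg_of_le (fun i => integral_nonneg fun ω => sq_nonneg _)
        (fun i => ?_) hsum
      have h0 : (0 : ℝ) < ((i + 1 : ℕ) : ℝ) ^ 2 := by positivity
      have e0 : ∫ ω, (‖∑ n ∈ Icc 1 ((i + 1) ^ 2), V n ω‖ / ((i + 1 : ℕ) : ℝ) ^ 2) ^ 2 ∂P =
          (∫ ω, ‖∑ n ∈ Icc 1 ((i + 1) ^ 2), V n ω‖ ^ 2 ∂P) / (((i + 1 : ℕ) : ℝ) ^ 2) ^ 2 := by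
        simp only [div_pow]
        rw [integral_div]
      rw [e0, div_le_iff₀ (by positivity)]
      refine (second P V hV h2 K0 horth ((i + 1) ^ 2)).trans (le_of_eq ?_)
      push_cast
      field_simp
  filter_upwards [key] with ω hω
  -- interpolation
  have hbound : ∀ N : ℕ, 1 ≤ N → ‖∑ n ∈ Icc 1 N, V n ω‖ / N ≤
      ‖∑ n ∈ Icc 1 ((N.sqrt - 1 + 1) ^ 2), V n ω‖ / ((N.sqrt - 1 + 1 : ℕ) : ℝ) ^ 2 +
        4 / (N.sqrt : ℝ) := by
    intro N hN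
    have hs1 : 1 ≤ N.sqrt := Nat.sqrt_pos.2 hN
    have e1 : N.sqrt - 1 + 1 = N.sqrt := by omega
    rw [e1]
    have h1 : N.sqrt ^ 2 ≤ N := by rw [sq]; exact Nat.sqrt_le N
    have h3 : N ≤ N.sqrt ^ 2 + 2 * N.sqrt := by
      have := Nat.sqrt_le_add N
      rw [sq]
      omega
    have hs0 : (0 : ℝ) < N.sqrt := by exact_mod_cast hs1
    have hN0 : (0 : ℝ) < N := by exact_mod_cast hN
    have h1' : (N.sqrt : ℝ) ^ 2 ≤ N := by exact_mod_cast h1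
    have h3' : (N : ℝ) ≤ (N.sqrt : ℝ) ^ 2 + 2 * N.sqrt := by exact_mod_cast h3
    have hsplit : ∑ n ∈ Icc 1 N, V n ω = ∑ n ∈ Icc 1 (N.sqrt ^ 2), V n ω +
        ∑ n ∈ Ioc (N.sqrt ^ 2) N, V n ω := by
      rw [← sum_union]
      · congr 1
        ext n
        simp only [mem_union, mem_Icc, mem_Ioc]
        omega
      · rw [disjoint_left]
        intro n hn hn2
        rw [mem_Icc] at hn
        rw [mem_Ioc] at hn2
        omega
    have h4 : ‖∑ n ∈ Ioc (N.sqrt ^ 2) N, V n ω‖ ≤ 4 * N.sqrt := by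
      refine (norm_sum_le _ _).trans ?_
      calc ∑ n ∈ Ioc (N.sqrt ^ 2) N, ‖V n ω‖ ≤ ∑ n ∈ Ioc (N.sqrt ^ 2) N, (2 : ℝ) :=
            sum_le_sum fun n _ => h2 n ω
        _ = 2 * ((N - N.sqrt ^ 2 : ℕ) : ℝ) := by
            rw [sum_const, Nat.card_Ioc, nsmul_eq_mul, mul_comm]
        _ ≤ 2 * (2 * (N.sqrt : ℝ)) := by
            apply mul_le_mul_of_nonneg_left _ zero_le_two
            have : N - N.sqrt ^ 2 ≤ 2 * N.sqrt := by omega
            exact_mod_cast this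
        _ = 4 * N.sqrt := by ring
    have h5 : ‖∑ n ∈ Icc 1 N, V n ω‖ ≤ ‖∑ n ∈ Icc 1 (N.sqrt ^ 2), V n ω‖ + 4 * N.sqrt := by
      rw [hsplit]
      exact (norm_add_le _ _).trans (by linarith)
    calc ‖∑ n ∈ Icc 1 N, V n ω‖ / N ≤ (‖∑ n ∈ Icc 1 (N.sqrt ^ 2), V n ω‖ + 4 * N.sqrt) / N := by
          gcongr
      _ ≤ (‖∑ n ∈ Icc 1 (N.sqrt ^ 2), V n ω‖ + 4 * N.sqrt) / (N.sqrt : ℝ) ^ 2 := by
          gcongr
      _ = _ := by
          rw [add_div]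
          congr 1
          field_simp
  have hsq : Tendsto (fun N : ℕ => N.sqrt) atTop atTop := by
    rw [tendsto_atTop]
    intro m
    filter_upwards [eventually_ge_atTop (m * m)] with N hN
    exact Nat.le_sqrt.2 hN
  have hsq1 : Tendsto (fun N : ℕ => N.sqrt - 1) atTop atTop :=
    (tendsto_sub_atTop_nat 1).comp hsq
  have h6 : Tendsto (fun N : ℕ =>
      ‖∑ n ∈ Icc 1 ((N.sqrt - 1 + 1) ^ 2), V n ω‖ / ((N.sqrt - 1 + 1 : ℕ) : ℝ) ^ 2 +
        4 / (N.sqrt : ℝ)) atTop (𝓝 0) := by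
    have h7 := hω.comp hsq1
    have h8 : Tendsto (fun N : ℕ => 4 / (N.sqrt : ℝ)) atTop (𝓝 0) :=
      (tendsto_const_nhds (x := (4 : ℝ))).div_atTop (tendsto_natCast_atTop_atTop.comp hsq)
    simpa using h7.add h8
  refine tendsto_of_tendsto_of_tendsto_of_le_of_le' tendsto_const_nhds h6
    (Eventually.of_forall fun N => by positivity) ?_
  filter_upwards [eventually_ge_atTop 1] with N hN
  exact hbound N hN

end Pool.Agent.R739.RM
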