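import Mathlib
import Pool.Agent.R739.RM.Lln

/-!
# Averages of `e(u_n ξ)` for random digits
-/

set_option autoImplicit false

open Finset Filter Topology MeasureTheory ProbabilityTheory
open scoped Real

namespace Pool.Agent.R739.RM

open Pool.Agent.R739.RD Pool.Agent.H534R3.UDist

/-- decay of the characteristic functions of the digits -/
def DD {Ω : Type} [MeasurableSpace Ω] (P : Measure Ω) (D : ℕ → Ω → ℝ) (b : ℕ) (lam ρ : ℝ) : Prop :=
  ∀ (j : ℕ) (t : ℝ), 1 / (2 * (b : ℝ)) ≤ dz (lam * t) → ‖∫ ω, ee (t * D j ω) ∂P‖ ≤ ρ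

/-- partial sums -/
noncomputable def Xi {Ω : Type} (D : ℕ → Ω → ℝ) (b k : ℕ) (ω : Ω) : ℝ :=
  ∑ j ∈ range k, D j ω / (b : ℝ) ^ (j + 1)

/-- the mean over the fresh digits -/
noncomputable def kap {Ω : Type} [MeasurableSpace Ω] (P : Measure Ω) (D : ℕ → Ω → ℝ) (b : ℕ)
    (u : ℝ) (a c : ℕ) : ℂ := ∫ ω, ee (u * (Xi D b c ω - Xi D b a ω)) ∂P

/-- the centred terms -/
noncomputable def V {Ω : Type} [MeasurableSpace Ω] (P : Measure Ω) (D : ℕ → Ω → ℝ) (b : ℕ)
    (z : ℕ → Ω → ℂ) (u : ℕ → ℝ) (a c : ℕ → ℕ) (n : ℕ) (ω : Ω) : ℂ :=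
  z n ω * (ee (u n * Xi D b (c n) ω) - kap P D b (u n) (a n) (c n) * ee (u n * Xi D b (a n) ω))

lemma measurable_Xi {Ω : Type} [MeasurableSpace Ω] (D : ℕ → Ω → ℝ) (hD : ∀ j, Measurable (D j))
    (b k : ℕ) : Measurable (Xi D b k) :=
  Finset.measurable_fun_sum _ fun j _ => (hD j).div_const _

lemma norm_kap_le {Ω : Type} [MeasurableSpace Ω] (P : Measure Ω) [IsProbabilityMeasure P]
    (D : ℕ → Ω → ℝ) (b : ℕ) (u : ℝ) (a c : ℕ) : ‖kap P D b u a c‖ ≤ 1 := norm_int_le P _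

lemma norm_V_le {Ω : Type} [MeasurableSpace Ω] (P : Measure Ω) [IsProbabilityMeasure P]
    (D : ℕ → Ω → ℝ) (b : ℕ) (z : ℕ → Ω → ℂ) (hz : ∀ n ω, ‖z n ω‖ ≤ 1) (u : ℕ → ℝ) (a c : ℕ → ℕ)
    (n : ℕ) (ω : Ω) : ‖V P D b z u a c n ω‖ ≤ 2 := by
  unfold V
  rw [norm_mul]
  have h1 : ‖ee (u n * Xi D b (c n) ω) - kap P D b (u n) (a n) (c n) *
      ee (u n * Xi D b (a n) ω)‖ ≤ 2 := by
    refine (norm_sub_le _ _).trans ?_
    rw [norm_ee, norm_mul, norm_ee, mul_one]
    have := norm_kap_le P D b (u n) (a n) (c n)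
    linarith
  calc ‖z n ω‖ * _ ≤ 1 * 2 := mul_le_mul (hz n ω) h1 (norm_nonneg _) zero_le_one
    _ = 2 := by norm_num

lemma measurable_V {Ω : Type} [MeasurableSpace Ω] (P : Measure Ω)
    (D : ℕ → Ω → ℝ) (hD : ∀ j, Measurable (D j)) (b : ℕ) (z : ℕ → Ω → ℂ)
    (hz : ∀ n, Measurable (z n)) (u : ℕ → ℝ) (a c : ℕ → ℕ)
    (n : ℕ) : Measurable (V P D b z u a c n) := by
  unfold V
  refine (hz n).mul ?_
  exact (measurable_ee.comp ((measurable_Xi D hD b _).const_mul _)).sub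
    ((measurable_ee.comp ((measurable_Xi D hD b _).const_mul _)).const_mul _)

/-- the σ-algebra of the digits `j < k` -/
abbrev Near {Ω : Type} (D : ℕ → Ω → ℝ) (k : ℕ) : MeasurableSpace Ω :=
  ⨆ j ∈ {j : ℕ | j < k}, MeasurableSpace.comap (D j) inferInstance

/-- the σ-algebra of the digits `j ≥ k` -/
abbrev Fresh {Ω : Type} (D : ℕ → Ω → ℝ) (k : ℕ) : MeasurableSpace Ω :=
  ⨆ j ∈ {j : ℕ | k ≤ j}, MeasurableSpace.comap (D j) inferInstance

lemma near_D {Ω : Type} (D : ℕ → Ω → ℝ) {j k : ℕ} (h : j < k) : Measurable[Near D k] (D j) := by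
  have h1 : MeasurableSpace.comap (D j) inferInstance ≤ Near D k :=
    le_iSup₂_of_le (f := fun (j : ℕ) (_ : j ∈ {j : ℕ | j < k}) =>
      MeasurableSpace.comap (D j) inferInstance) j h le_rfl
  exact (comap_measurable (D j)).mono h1 le_rfl

lemma fresh_D {Ω : Type} (D : ℕ → Ω → ℝ) {j k : ℕ} (h : k ≤ j) : Measurable[Fresh D k] (D j) := by
  have h1 : MeasurableSpace.comap (D j) inferInstance ≤ Fresh D k :=
    le_iSup₂_of_le (f := fun (j : ℕ) (_ : j ∈ {j : ℕ | k ≤ j}) =>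
      MeasurableSpace.comap (D j) inferInstance) j h le_rfl
  exact (comap_measurable (D j)).mono h1 le_rfl

lemma near_mono {Ω : Type} (D : ℕ → Ω → ℝ) {k l : ℕ} (h : k ≤ l) : Near D k ≤ Near D l := by
  unfold Near
  refine iSup₂_le fun j hj => ?_
  exact le_iSup₂_of_le j (lt_of_lt_of_le hj h) le_rfl

lemma near_Xi {Ω : Type} (D : ℕ → Ω → ℝ) (b : ℕ) {m k : ℕ} (h : m ≤ k) :
    Measurable[Near D k] (Xi D b m) := by
  refine @Finset.measurable_fun_sum _ _ _ _ _ _ (Near D k) _ _ fun j hj => ?_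
  exact (near_D D ((mem_range.1 hj).trans_le h)).div_const _

lemma fresh_Xi {Ω : Type} (D : ℕ → Ω → ℝ) (b : ℕ) {a c : ℕ} (h : a ≤ c) :
    Measurable[Fresh D a] (fun ω => Xi D b c ω - Xi D b a ω) := by
  have e : (fun ω => Xi D b c ω - Xi D b a ω) =
      fun ω => ∑ j ∈ Ico a c, D j ω / (b : ℝ) ^ (j + 1) := by
    funext ω
    rw [Finset.sum_Ico_eq_sub _ h]
    rfl
  rw [e]
  refine @Finset.measurable_fun_sum _ _ _ _ _ _ (Fresh D a) _ _ fun j hj => ?_
  exact (fresh_D D (mem_Ico.1 hj).1).div_const _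

/-- orthogonality -/
lemma orth {Ω : Type} [MeasurableSpace Ω] (P : Measure Ω) [IsProbabilityMeasure P]
    (D : ℕ → Ω → ℝ) (hD : ∀ j, Measurable (D j)) (hI : iIndepFun D P) (b : ℕ) (z : ℕ → Ω → ℂ)
    (u : ℕ → ℝ) (a c : ℕ → ℕ) (hz : ∀ n, Measurable[Near D (a n)] (z n)) (hac : ∀ n, a n ≤ c n)
    (m n : ℕ) (h : c m ≤ a n) :
    ∫ ω, V P D b z u a c n ω * (starRingEnd ℂ) (V P D b z u a c m ω) ∂P = 0 := by
  set A : Ω → ℂ := fun ω => z n ω * ee (u n * Xi D b (a n) ω) *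
    (starRingEnd ℂ) (V P D b z u a c m ω) with hA
  set B : Ω → ℂ := fun ω => ee (u n * (Xi D b (c n) ω - Xi D b (a n) ω)) -
    kap P D b (u n) (a n) (c n) with hB
  have hVm : Measurable[Near D (a n)] (V P D b z u a c m) := by
    unfold V
    refine ((hz m).mono (near_mono D ((hac m).trans h)) le_rfl).mul ?_
    exact (measurable_ee.comp ((near_Xi D b h).const_mul _)).sub
      ((measurable_ee.comp ((near_Xi D b ((hac m).trans h)).const_mul _)).const_mul _)
  have hAm : Measurable[Near D (a n)] A :=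
    ((hz n).mul (measurable_ee.comp ((near_Xi D b le_rfl).const_mul _))).mul
      (Complex.continuous_conj.measurable.comp hVm)
  have hBm : Measurable[Fresh D (a n)] B :=
    (measurable_ee.comp ((fresh_Xi D b (hac n)).const_mul _)).sub_const _
  have hAmm : Measurable A :=
    hAm.mono (iSup₂_le fun j _ => (hD j).comap_le) le_rfl
  have hBmm : Measurable B :=
    hBm.mono (iSup₂_le fun j _ => (hD j).comap_le) le_rfl
  have hind : IndepFun A B P := by
    rw [IndepFun_iff_Indep]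
    have hdisj : Disjoint {j : ℕ | j < a n} {j : ℕ | a n ≤ j} := by
      rw [Set.disjoint_left]
      intro j h1 h2
      have h3 : a n ≤ j := h2
      have h4 : j < a n := h1
      omega
    have h1 := indep_iSup_of_disjoint (m := fun j => MeasurableSpace.comap (D j) inferInstance)
      (fun j => (hD j).comap_le) ((iIndepFun_iff_iIndep _ _ _).1 hI) hdisj
    exact indep_of_indep_of_le h1 hAm.comap_le hBm.comap_le
  have e1 : ∀ ω, V P D b z u a c n ω * (starRingEnd ℂ) (V P D b z u a c m ω) = A ω * B ω := by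
    intro ω
    have h2 : u n * Xi D b (c n) ω = u n * Xi D b (a n) ω +
        u n * (Xi D b (c n) ω - Xi D b (a n) ω) := by ring
    have h3 : V P D b z u a c n ω = z n ω * ee (u n * Xi D b (a n) ω) * B ω := by
      simp only [V, hB]
      rw [h2, ee_add]
      ring
    rw [h3]
    simp only [hA]
    ring
  simp only [e1]
  rw [hind.integral_fun_mul_eq_mul_integral hAmm.aestronglyMeasurable hBmm.aestronglyMeasurable]
  have hB0 : ∫ ω, B ω ∂P = 0 := by
    have hi : Integrable (fun ω => ee (u n * (Xi D b (c n) ω - Xi D b (a n) ω))) P := by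
      refine integrable_ee P _ ?_
      exact Measurable.const_mul ((measurable_Xi D hD b (c n)).sub (measurable_Xi D hD b (a n))) _
    simp only [hB]
    rw [integral_sub hi (integrable_const _)]
    simp [kap]
  rw [hB0, mul_zero]

/-- decay of the mean over the fresh digits -/
lemma kap_le {Ω : Type} [MeasurableSpace Ω] (P : Measure Ω) [IsProbabilityMeasure P]
    (D : ℕ → Ω → ℝ) (hD : ∀ j, Measurable (D j)) (hI : iIndepFun D P) (b : ℕ) (lam ρ : ℝ)
    (hρ0 : 0 ≤ ρ) (hDD : DD P D b lam ρ) (u : ℝ) (a c : ℕ) (hac : a ≤ c) (S : Finset ℕ)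
    (hS : ∀ j ∈ S, a ≤ j ∧ j < c ∧ 1 / (2 * (b : ℝ)) ≤ dz (lam * u / (b : ℝ) ^ (j + 1))) :
    ‖kap P D b u a c‖ ≤ ρ ^ S.card := by
  classical
  set g : ℕ → ℝ → ℝ := fun j x => if a ≤ j then x / (b : ℝ) ^ (j + 1) else 0 with hg
  have hgm : ∀ j, Measurable (g j) := by
    intro j
    simp only [hg]
    split_ifs
    · exact measurable_id.div_const _
    · exact measurable_const
  have hI' : iIndepFun (fun j ω => g j (D j ω)) P := hI.comp g hgm
  have h1 := chi_prod P (fun j ω => g j (D j ω)) (fun j => (hgm j).comp (hD j)) hI' c u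
  have h2 : kap P D b u a c = ∫ ω, ee (u * ∑ j ∈ range c, g j (D j ω)) ∂P := by
    unfold kap
    refine integral_congr_ae (Eventually.of_forall fun ω => ?_)
    show ee _ = ee _
    congr 2
    have e : Xi D b c ω - Xi D b a ω = ∑ j ∈ Ico a c, D j ω / (b : ℝ) ^ (j + 1) := by
      rw [Finset.sum_Ico_eq_sub _ hac]
      rfl
    rw [e]
    have e2 : ∑ j ∈ range c, g j (D j ω) = ∑ j ∈ (range c).filter (fun j => a ≤ j),
        D j ω / (b : ℝ) ^ (j + 1) := by
      rw [sum_filter]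
    rw [e2]
    congr 1
    ext j
    rw [mem_Ico, mem_filter, mem_range]
    tauto
  rw [h2, h1, norm_prod]
  have hSsub : S ⊆ range c := fun j hj => mem_range.2 (hS j hj).2.1
  rw [← Finset.prod_sdiff hSsub]
  have h4 : ∏ j ∈ Finset.range c \ S, ‖∫ ω, ee (u * g j (D j ω)) ∂P‖ ≤ 1 :=
    Finset.prod_le_one (fun j _ => norm_nonneg _) fun j _ => norm_int_le P _
  have h5 : 0 ≤ ∏ j ∈ S, ‖∫ ω, ee (u * g j (D j ω)) ∂P‖ :=
    Finset.prod_nonneg fun j _ => norm_nonneg _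
  calc _ ≤ 1 * ∏ j ∈ S, ‖∫ ω, ee (u * g j (D j ω)) ∂P‖ := mul_le_mul_of_nonneg_right h4 h5
    _ = ∏ j ∈ S, ‖∫ ω, ee (u * g j (D j ω)) ∂P‖ := one_mul _
    _ ≤ ∏ j ∈ S, ρ := by
        refine Finset.prod_le_prod (fun j _ => norm_nonneg _) fun j hj => ?_
        obtain ⟨h6, h7, h8⟩ := hS j hj
        have h9 := hDD j (u / (b : ℝ) ^ (j + 1)) (by
          rw [show lam * (u / (b : ℝ) ^ (j + 1)) = lam * u / (b : ℝ) ^ (j + 1) by ring]
          exact h8)
        refine le_trans (le_of_eq ?_) h9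
        congr 1
        refine integral_congr_ae (Eventually.of_forall fun ω => ?_)
        show ee _ = ee _
        congr 1
        simp only [hg, if_pos h6]
        ring
    _ = ρ ^ S.card := by rw [prod_const]

end Pool.Agent.R739.RM
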