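import Mathlib
import Pool.Agent.R739.RM.Mart

/-!
# Averages of `e(a α^n ξ)` for random digits
-/

set_option autoImplicit false

open Finset Filter Topology MeasureTheory ProbabilityTheory
open scoped Real

namespace Pool.Agent.R739.RM

open Pool.Agent.R739.RD Pool.Agent.H534R3.UDist

lemma ee_lip (x y : ℝ) : ‖ee x - ee y‖ ≤ 2 * π * |x - y| := by
  have h1 : ee x - ee y = ee y * (ee (x - y) - 1) := by
    rw [mul_sub, ← ee_add, mul_one]
    congr 2
    ring
  rw [h1, norm_mul, norm_ee, one_mul]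
  have h2 : ee (x - y) = Complex.exp (Complex.I * ((2 * π * (x - y) : ℝ) : ℂ)) := by
    rw [ee_eq, mul_comm]
  rw [h2]
  refine (Real.norm_exp_I_mul_ofReal_sub_one_le (x := 2 * π * (x - y))).trans (le_of_eq ?_)
  rw [Real.norm_eq_abs, abs_mul, abs_of_pos (by positivity)]

lemma sum_geo (b : ℕ) (hb : 2 ≤ b) (c n : ℕ) (h : c ≤ n) :
    ∑ j ∈ Ico c n, 1 / (b : ℝ) ^ (j + 1) ≤ ((b : ℝ) ^ c)⁻¹ - ((b : ℝ) ^ n)⁻¹ := by
  have hb2 : (2 : ℝ) ≤ b := by exact_mod_cast hb
  have hb0 : (0 : ℝ) < b := by linarith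
  induction n, h using Nat.le_induction with
  | base => simp
  | succ n hn ih =>
    rw [Finset.sum_Ico_succ_top hn]
    have h1 : 1 / (b : ℝ) ^ (n + 1) ≤ ((b : ℝ) ^ n)⁻¹ - ((b : ℝ) ^ (n + 1))⁻¹ := by
      have h2 : ((b : ℝ) ^ n)⁻¹ = b * ((b : ℝ) ^ (n + 1))⁻¹ := by
        rw [pow_succ]
        field_simp
      rw [h2, one_div]
      have h3 : 0 < ((b : ℝ) ^ (n + 1))⁻¹ := by positivity
      nlinarith
    linarith

lemma tail_le {Ω : Type} (D : ℕ → Ω → ℝ) (M : ℝ) (hM : ∀ j ω, |D j ω| ≤ M) (b : ℕ) (hb : 2 ≤ b)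
    (ξ : Ω → ℝ) (ω : Ω)
    (hs : Tendsto (fun n => Xi D b n ω) atTop (𝓝 (ξ ω))) (c : ℕ) :
    |ξ ω - Xi D b c ω| ≤ M * ((b : ℝ) ^ c)⁻¹ := by
  have hb2 : (2 : ℝ) ≤ b := by exact_mod_cast hb
  have hb0 : (0 : ℝ) < b := by linarith
  have hM0 : 0 ≤ M := (abs_nonneg _).trans (hM 0 ω)
  refine le_of_tendsto (hs.sub_const (Xi D b c ω)).abs ?_
  filter_upwards [eventually_ge_atTop c] with n hn
  have e : Xi D b n ω - Xi D b c ω = ∑ j ∈ Ico c n, D j ω / (b : ℝ) ^ (j + 1) := by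
    rw [Finset.sum_Ico_eq_sub _ hn]
    rfl
  rw [e]
  refine (abs_sum_le_sum_abs _ _).trans ?_
  calc ∑ j ∈ Ico c n, |D j ω / (b : ℝ) ^ (j + 1)| ≤ ∑ j ∈ Ico c n, M * (1 / (b : ℝ) ^ (j + 1)) := by
        refine sum_le_sum fun j _ => ?_
        rw [abs_div, abs_of_pos (by positivity : (0 : ℝ) < (b : ℝ) ^ (j + 1)), mul_one_div]
        exact div_le_div_of_nonneg_right (hM j ω) (by positivity)
    _ = M * ∑ j ∈ Ico c n, 1 / (b : ℝ) ^ (j + 1) := by rw [mul_sum]
    _ ≤ M * ((b : ℝ) ^ c)⁻¹ := by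
        apply mul_le_mul_of_nonneg_left _ hM0
        have := sum_geo b hb c n hn
        have h2 : 0 < ((b : ℝ) ^ n)⁻¹ := by positivity
        linarith

/-- the σ-algebra of the digits `D j` with `j ≤ x` -/
abbrev Before {Ω : Type} (D : ℕ → Ω → ℝ) (x : ℝ) : MeasurableSpace Ω :=
  ⨆ j ∈ {j : ℕ | (j : ℝ) ≤ x}, MeasurableSpace.comap (D j) inferInstance

lemma before_near {Ω : Type} (D : ℕ → Ω → ℝ) {x : ℝ} {k : ℕ} (h : x < k) :
    Before D x ≤ Near D k := by
  refine iSup₂_le fun j hj => ?_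
  have h1 : (j : ℝ) ≤ x := hj
  have h2 : j < k := by exact_mod_cast h1.trans_lt h
  exact le_iSup₂_of_le (f := fun (j : ℕ) (_ : j ∈ {j : ℕ | j < k}) =>
      MeasurableSpace.comap (D j) inferInstance) j h2 le_rfl

lemma before_le {Ω : Type} [mΩ : MeasurableSpace Ω] (D : ℕ → Ω → ℝ)
    (hD : ∀ j, Measurable (D j)) (x : ℝ) : Before D x ≤ mΩ :=
  iSup₂_le fun j _ => (hD j).comap_le

/-- the bound with fixed parameters -/
lemma step {Ω : Type} [MeasurableSpace Ω] (P : Measure Ω) [IsProbabilityMeasure P]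
    (D : ℕ → Ω → ℝ) (hD : ∀ j, Measurable (D j)) (hI : iIndepFun D P) (M : ℝ)
    (hM : ∀ j ω, |D j ω| ≤ M) (b : ℕ) (hb : 2 ≤ b) (ξ : Ω → ℝ)
    (hs : ∀ ω, Tendsto (fun n => Xi D b n ω) atTop (𝓝 (ξ ω)))
    (lam ρ : ℝ) (hlam : lam ≠ 0) (hρ0 : 0 ≤ ρ) (hρ1 : ρ < 1) (hDD : DD P D b lam ρ)
    (α : ℝ) (hα : 1 < α) (hS : Sparse α b) (κ : ℝ) (hκ : κ < Real.log α / Real.log b)
    (Z : ℕ → Ω → ℂ) (hZm : ∀ n : ℕ, Measurable[Before D (κ * n)] (Z n))
    (hZ : ∀ n ω, ‖Z n ω‖ ≤ 1) (a : ℝ) (ha : a ≠ 0) (k : ℕ) :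
    ∃ K : ℝ, ∀ᵐ ω ∂P, ∃ f : ℕ → ℝ, Tendsto f atTop (𝓝 0) ∧ ∀ N : ℕ, 1 ≤ N →
      ‖∑ n ∈ Icc 1 N, Z n ω * ee (a * α ^ n * ξ ω)‖ / N ≤
        f N + K / N + (2 * π * M * ((b : ℝ) ^ k)⁻¹ / |lam| + ρ ^ k + 1 / ((k : ℝ) + 1)) := by
  classical
  have hb2 : (2 : ℝ) ≤ b := by exact_mod_cast hb
  have hb0 : (0 : ℝ) < b := by linarith
  have hb1 : (1 : ℝ) ≤ b := by linarith
  have hα0 : 0 < α := by linarith
  have hla : lam * a ≠ 0 := mul_ne_zero hlam ha
  have hk0 : (0 : ℝ) < (k : ℝ) + 1 := by positivity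
  obtain ⟨G, C, hG⟩ := good_count α b hb hS (lam * a) hla k (1 / ((k : ℝ) + 1)) (by positivity)
  set T : ℕ → ℝ := fun n => lam * a * α ^ n with hT
  have hT0 : ∀ n, T n ≠ 0 := fun n => by simp only [hT]; positivity
  have hTa : ∀ n, |T n| = |lam * a| * α ^ n := fun n => by
    simp only [hT]
    rw [abs_mul, abs_of_pos (by positivity : (0 : ℝ) < α ^ n)]
  set u : ℕ → ℝ := fun n => a * α ^ n with hu
  have hTu : ∀ n, T n = lam * u n := fun n => by simp only [hT, hu]; ring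
  set A : ℕ → ℕ := fun n => (top b (T n) - G - 1).toNat with hA
  set c : ℕ → ℕ := fun n => (top b (T n) + k + 1).toNat with hc
  have hac : ∀ n, A n ≤ c n := fun n => by
    simp only [hA, hc]
    apply Int.toNat_le_toNat
    omega
  -- the tops grow
  obtain ⟨K0, hK0⟩ := pow_unbounded_of_one_lt ((b : ℝ) ^ (G + k + 3)) hα
  have hgrow : ∀ m n, m + K0 ≤ n → c m ≤ A n := by
    intro m n hmn
    simp only [hA, hc]
    apply Int.toNat_le_toNat
    have h1 : (b : ℝ) ^ (top b (T m) + (G + k + 3 : ℕ)) ≤ |T n| := by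
      rw [zpow_add₀ hb0.ne', zpow_natCast]
      have h2 := top_le b hb (T m) (hT0 m)
      have e : |T n| = |T m| * α ^ (n - m) := by
        rw [hTa, hTa, mul_assoc, ← pow_add]
        congr 2
        omega
      rw [e]
      have h3 : α ^ K0 ≤ α ^ (n - m) := pow_le_pow_right₀ hα.le (by omega)
      exact mul_le_mul h2 (hK0.le.trans h3) (by positivity) (abs_nonneg _)
    have h2 := (Int.zpow_le_iff_le_log (by omega) (abs_pos.2 (hT0 n))).1 h1
    have h3 : top b (T m) + (G + k + 3 : ℕ) ≤ top b (T n) := h2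
    push_cast at h3
    omega
  -- large times
  obtain ⟨n1, hn1⟩ := pow_unbounded_of_one_lt ((b : ℝ) ^ (G + 1) / |lam * a|) hα
  have hlarge : ∀ n, n1 ≤ n → (G : ℤ) + 1 ≤ top b (T n) := by
    intro n hn
    have h1 : (b : ℝ) ^ ((G + 1 : ℕ) : ℤ) ≤ |T n| := by
      rw [zpow_natCast, hTa]
      have h2 : α ^ n1 ≤ α ^ n := pow_le_pow_right₀ hα.le hn
      have h3 : 0 < |lam * a| := abs_pos.2 hla
      rw [div_lt_iff₀ h3] at hn1
      have h4 := mul_le_mul_of_nonneg_left h2 h3.le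
      linarith
    have h2 := (Int.zpow_le_iff_le_log (by omega) (abs_pos.2 (hT0 n))).1 h1
    have h3 : ((G + 1 : ℕ) : ℤ) ≤ top b (T n) := h2
    push_cast at h3
    exact h3
  -- the means over the fresh digits
  have hkap : ∀ n, n1 ≤ n → k ≤ (good b (T n) G).card → ‖kap P D b (u n) (A n) (c n)‖ ≤ ρ ^ k := by
    intro n hn hk
    have hl := hlarge n hn
    set S : Finset ℕ := (good b (T n) G).image (fun e => (e - 1).toNat) with hSS
    have hcard : S.card = (good b (T n) G).card := by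
      rw [hSS]
      apply card_image_of_injOn
      intro e he e' he' h
      rw [mem_coe, mem_good] at he he'
      simp only at h
      omega
    have hm : ∀ j ∈ S, A n ≤ j ∧ j < c n ∧
        1 / (2 * (b : ℝ)) ≤ dz (lam * u n / (b : ℝ) ^ (j + 1)) := by
      intro j hj
      rw [hSS, mem_image] at hj
      obtain ⟨e, he, rfl⟩ := hj
      rw [mem_good] at he
      obtain ⟨⟨h1, h2⟩, h3⟩ := he
      refine ⟨?_, ?_, ?_⟩
      · simp only [hA]
        apply Int.toNat_le_toNat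
        omega
      · simp only [hc]
        omega
      · have h4 : (b : ℝ) ^ ((e - 1).toNat + 1) = (b : ℝ) ^ e := by
          rw [← zpow_natCast]
          congr 1
          push_cast
          omega
        rw [h4, ← hTu]
        exact h3
    refine (kap_le P D hD hI b lam ρ hρ0 hDD (u n) (A n) (c n) (hac n) S hm).trans ?_
    rw [hcard]
    exact pow_le_pow_of_le_one hρ0 hρ1.le hk
  have hkap2 : ∀ n, ‖kap P D b (u n) (A n) (c n)‖ ≤ ρ ^ k +
      (if (good b (T n) G).card < k then 1 else 0) + (if n < n1 then 1 else 0) := by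
    intro n
    have h0 : 0 ≤ ρ ^ k := pow_nonneg hρ0 k
    have h1 := norm_kap_le P D b (u n) (A n) (c n)
    by_cases hg : (good b (T n) G).card < k
    · rw [if_pos hg]
      split_ifs <;> linarith
    · by_cases hn : n < n1
      · rw [if_neg hg, if_pos hn]
        linarith
      · rw [if_neg hg, if_neg hn]
        have := hkap n (not_lt.1 hn) (not_lt.1 hg)
        linarith
  -- the tail
  have htail : ∀ n ω, ‖ee (u n * ξ ω) - ee (u n * Xi D b (c n) ω)‖ ≤
      2 * π * M * ((b : ℝ) ^ k)⁻¹ / |lam| := by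
    intro n ω
    have hM0 : 0 ≤ M := (abs_nonneg _).trans (hM 0 ω)
    refine (ee_lip _ _).trans ?_
    have h1 := tail_le D M hM b hb ξ ω (hs ω) (c n)
    have h2 : |u n * ξ ω - u n * Xi D b (c n) ω| ≤ |u n| * (M * ((b : ℝ) ^ (c n))⁻¹) := by
      rw [← mul_sub, abs_mul]
      exact mul_le_mul_of_nonneg_left h1 (abs_nonneg _)
    have hlp : 0 < |lam| := abs_pos.2 hlam
    have h3 : |u n| * ((b : ℝ) ^ (c n))⁻¹ ≤ ((b : ℝ) ^ k)⁻¹ / |lam| := by
      have h4 : |T n| = |lam| * |u n| := by rw [hTu, abs_mul]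
      have h5 := lt_top b hb (T n)
      have h6 : (b : ℝ) ^ (top b (T n) + 1) * (b : ℝ) ^ k ≤ (b : ℝ) ^ (c n) := by
        rw [← zpow_natCast (b : ℝ) k, ← zpow_add₀ hb0.ne', ← zpow_natCast (b : ℝ) (c n)]
        apply zpow_le_zpow_right₀ hb1
        have := Int.self_le_toNat (top b (T n) + k + 1)
        simp only [hc]
        omega
      have h7 : |lam| * |u n| * (b : ℝ) ^ k ≤ (b : ℝ) ^ (c n) := by
        refine le_trans ?_ h6
        rw [← h4]
        exact mul_le_mul_of_nonneg_right h5.le (by positivity)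
      rw [← div_eq_mul_inv, div_le_div_iff₀ (by positivity) hlp]
      rw [inv_mul_eq_div, le_div_iff₀ (by positivity)]
      calc |u n| * |lam| * (b : ℝ) ^ k = |lam| * |u n| * (b : ℝ) ^ k := by ring
        _ ≤ _ := h7
    calc 2 * π * |u n * ξ ω - u n * Xi D b (c n) ω|
        ≤ 2 * π * (|u n| * (M * ((b : ℝ) ^ (c n))⁻¹)) :=
          mul_le_mul_of_nonneg_left h2 (by positivity)
      _ = 2 * π * M * (|u n| * ((b : ℝ) ^ (c n))⁻¹) := by ring
      _ ≤ 2 * π * M * (((b : ℝ) ^ k)⁻¹ / |lam|) := mul_le_mul_of_nonneg_left h3 (by positivity)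
      _ = _ := by ring
  -- the weights
  have hlb : 0 < Real.log b := Real.log_pos (by linarith)
  obtain ⟨n2, hn2⟩ : ∃ n2 : ℕ, ∀ n : ℕ, n2 ≤ n → κ * n < A n := by
    set δ : ℝ := Real.log α / Real.log b - κ with hδ
    have hδ0 : 0 < δ := by rw [hδ]; linarith
    obtain ⟨n2, hn2⟩ := exists_nat_gt ((G + 2 - Real.log |lam * a| / Real.log b) / δ)
    refine ⟨n2, fun n hn => ?_⟩
    have hnR : (n2 : ℝ) ≤ n := by exact_mod_cast hn
    have h1 : (G + 2 - Real.log |lam * a| / Real.log b) < n * δ := by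
      rw [div_lt_iff₀ hδ0] at hn2
      exact hn2.trans_le (mul_le_mul_of_nonneg_right hnR hδ0.le)
    have h2 : Real.log |T n| < (top b (T n) + 1) * Real.log b := by
      have h3 := Real.log_lt_log (abs_pos.2 (hT0 n)) (lt_top b hb (T n))
      rw [Real.log_zpow] at h3
      push_cast at h3
      exact h3
    have h4 : Real.log |T n| = Real.log |lam * a| + n * Real.log α := by
      rw [hTa, Real.log_mul (abs_pos.2 hla).ne' (by positivity), Real.log_pow]
    rw [h4] at h2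
    have h5 : Real.log |lam * a| / Real.log b + n * (Real.log α / Real.log b) <
        top b (T n) + 1 := by
      rw [← mul_div_assoc, ← add_div, div_lt_iff₀ hlb]
      exact h2
    have h6 : ((top b (T n) - G - 1 : ℤ) : ℝ) ≤ ((A n : ℤ) : ℝ) := by
      exact_mod_cast Int.self_le_toNat _
    push_cast at h6
    have h7 : n * δ = n * (Real.log α / Real.log b) - κ * n := by rw [hδ]; ring
    linarith
  set z : ℕ → Ω → ℂ := fun n ω => if n < n2 then 0 else Z n ω with hzdef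
  have hz : ∀ n ω, ‖z n ω‖ ≤ 1 := by
    intro n ω
    simp only [hzdef]
    split_ifs
    · simp
    · exact hZ n ω
  have hzm : ∀ n, Measurable[Near D (A n)] (z n) := by
    intro n
    by_cases hn : n < n2
    · have : z n = fun _ => 0 := by
        funext ω
        simp only [hzdef, if_pos hn]
      rw [this]
      exact measurable_const
    · have : z n = Z n := by
        funext ω
        simp only [hzdef, if_neg hn]
      rw [this]
      exact (hZm n).mono (before_near D (hn2 n (not_lt.1 hn))) le_rfl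
  have hzmm : ∀ n, Measurable (z n) := fun n =>
    (hzm n).mono (iSup₂_le fun j _ => (hD j).comap_le) le_rfl
  -- the law of large numbers
  have hlln := lln P (V P D b z u A c) (fun n => measurable_V P D hD b z hzmm u A c n)
    (fun n ω => norm_V_le P D b z hz u A c n ω) K0
    (fun m n hmn => orth P D hD hI b z u A c hzm hac m n (hgrow m n hmn))
  refine ⟨C + n1 + n2, ?_⟩
  filter_upwards [hlln] with ω hω
  refine ⟨_, hω, fun N hN => ?_⟩
  have hN0 : (0 : ℝ) < N := by exact_mod_cast hN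
  have hdec : ∀ n, z n ω * ee (a * α ^ n * ξ ω) = V P D b z u A c n ω +
      z n ω * ((ee (u n * ξ ω) - ee (u n * Xi D b (c n) ω)) +
        kap P D b (u n) (A n) (c n) * ee (u n * Xi D b (A n) ω)) := by
    intro n
    simp only [V, hu]
    ring
  have hsum : ‖∑ n ∈ Icc 1 N, z n ω * ee (a * α ^ n * ξ ω)‖ ≤
      ‖∑ n ∈ Icc 1 N, V P D b z u A c n ω‖ +
      ∑ n ∈ Icc 1 N, (2 * π * M * ((b : ℝ) ^ k)⁻¹ / |lam| + (ρ ^ k +
      (if (good b (T n) G).card < k then 1 else 0) + (if n < n1 then 1 else 0))) := by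
    simp only [hdec]
    rw [sum_add_distrib]
    refine (norm_add_le _ _).trans ?_
    apply add_le_add le_rfl
    refine (norm_sum_le _ _).trans (sum_le_sum fun n _ => ?_)
    rw [norm_mul]
    calc ‖z n ω‖ * _ ≤ 1 * _ := mul_le_mul_of_nonneg_right (hz n ω) (norm_nonneg _)
      _ = _ := one_mul _
      _ ≤ _ := norm_add_le _ _
      _ ≤ _ := by
          apply add_le_add (htail n ω)
          rw [norm_mul, norm_ee, mul_one]
          exact hkap2 n
  have hcnt : ∑ n ∈ Icc 1 N, (2 * π * M * ((b : ℝ) ^ k)⁻¹ / |lam| + (ρ ^ k +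
      (if (good b (T n) G).card < k then 1 else 0) + (if n < n1 then 1 else 0))) ≤
      N * (2 * π * M * ((b : ℝ) ^ k)⁻¹ / |lam| + ρ ^ k + 1 / ((k : ℝ) + 1)) + (C + n1) := by
    rw [sum_add_distrib, sum_add_distrib, sum_add_distrib, sum_const, sum_const, Nat.card_Icc,
      nsmul_eq_mul, nsmul_eq_mul, Nat.add_sub_cancel]
    have h1 : ∑ n ∈ Icc 1 N, (if (good b (T n) G).card < k then (1 : ℝ) else 0) ≤
        1 / ((k : ℝ) + 1) * N + C := by
      rw [← sum_filter, sum_const, nsmul_eq_mul, mul_one]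
      exact hG N
    have h2 : ∑ n ∈ Icc 1 N, (if n < n1 then (1 : ℝ) else 0) ≤ n1 := by
      rw [← sum_filter, sum_const, nsmul_eq_mul, mul_one]
      have h3 : ((Icc 1 N).filter (fun n => n < n1)).card ≤ n1 := by
        calc _ ≤ (range n1).card := card_le_card fun n hn => mem_range.2 (mem_filter.1 hn).2
          _ = n1 := card_range n1
      exact_mod_cast h3
    linarith
  have hZz : ‖∑ n ∈ Icc 1 N, Z n ω * ee (a * α ^ n * ξ ω)‖ ≤
      ‖∑ n ∈ Icc 1 N, z n ω * ee (a * α ^ n * ξ ω)‖ + n2 := by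
    have e : ∑ n ∈ Icc 1 N, Z n ω * ee (a * α ^ n * ξ ω) =
        ∑ n ∈ Icc 1 N, z n ω * ee (a * α ^ n * ξ ω) +
        ∑ n ∈ Icc 1 N, (Z n ω - z n ω) * ee (a * α ^ n * ξ ω) := by
      rw [← sum_add_distrib]
      refine sum_congr rfl fun n _ => ?_
      ring
    rw [e]
    refine (norm_add_le _ _).trans (add_le_add le_rfl ?_)
    refine (norm_sum_le _ _).trans ?_
    have h1 : ∀ n ∈ Icc 1 N, ‖(Z n ω - z n ω) * ee (a * α ^ n * ξ ω)‖ ≤
        if n < n2 then 1 else 0 := by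
      intro n _
      rw [norm_mul, norm_ee, mul_one]
      simp only [hzdef]
      split_ifs
      · rw [sub_zero]; exact hZ n ω
      · simp
    refine (sum_le_sum h1).trans ?_
    rw [← sum_filter, sum_const, nsmul_eq_mul, mul_one]
    have h3 : ((Icc 1 N).filter (fun n => n < n2)).card ≤ n2 := by
      calc _ ≤ (range n2).card := card_le_card fun n hn => mem_range.2 (mem_filter.1 hn).2
        _ = n2 := card_range n2
    exact_mod_cast h3
  calc ‖∑ n ∈ Icc 1 N, Z n ω * ee (a * α ^ n * ξ ω)‖ / N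
      ≤ (‖∑ n ∈ Icc 1 N, V P D b z u A c n ω‖ +
        (N * (2 * π * M * ((b : ℝ) ^ k)⁻¹ / |lam| + ρ ^ k + 1 / ((k : ℝ) + 1)) +
        (C + n1 + n2))) / N := by
        apply div_le_div_of_nonneg_right _ hN0.le
        linarith
    _ = _ := by
        rw [add_div, add_div, mul_div_cancel_left₀ _ hN0.ne']
        ring

/-- **The averages tend to zero almost surely.** -/
theorem ae_avg {Ω : Type} [MeasurableSpace Ω] (P : Measure Ω) [IsProbabilityMeasure P]
    (D : ℕ → Ω → ℝ) (hD : ∀ j, Measurable (D j)) (hI : iIndepFun D P) (M : ℝ)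
    (hM : ∀ j ω, |D j ω| ≤ M) (b : ℕ) (hb : 2 ≤ b) (ξ : Ω → ℝ)
    (hs : ∀ ω, Tendsto (fun n => Xi D b n ω) atTop (𝓝 (ξ ω)))
    (lam ρ : ℝ) (hlam : lam ≠ 0) (hρ0 : 0 ≤ ρ) (hρ1 : ρ < 1) (hDD : DD P D b lam ρ)
    (α : ℝ) (hα : 1 < α) (hS : Sparse α b) (κ : ℝ) (hκ : κ < Real.log α / Real.log b)
    (Z : ℕ → Ω → ℂ) (hZm : ∀ n : ℕ, Measurable[Before D (κ * n)] (Z n))
    (hZ : ∀ n ω, ‖Z n ω‖ ≤ 1) (a : ℝ) (ha : a ≠ 0) :
    ∀ᵐ ω ∂P, Tendsto (fun N : ℕ => ‖∑ n ∈ Icc 1 N, Z n ω * ee (a * α ^ n * ξ ω)‖ / N) atTop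
      (𝓝 0) := by
  have hb2 : (2 : ℝ) ≤ b := by exact_mod_cast hb
  choose K hK using fun k => step P D hD hI M hM b hb ξ hs lam ρ hlam hρ0 hρ1 hDD α hα hS κ hκ
    Z hZm hZ a ha k
  filter_upwards [ae_all_iff.2 hK] with ω hω
  have hr : Tendsto (fun k : ℕ => 2 * π * M * ((b : ℝ) ^ k)⁻¹ / |lam| + ρ ^ k +
      1 / ((k : ℝ) + 1)) atTop (𝓝 0) := by
    have h1 : Tendsto (fun k : ℕ => ((b : ℝ) ^ k)⁻¹) atTop (𝓝 0) :=
      (tendsto_pow_atTop_atTop_of_one_lt (by linarith : (1 : ℝ) < b)).inv_tendsto_atTop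
    have h2 := (h1.const_mul (2 * π * M)).div_const |lam|
    have h3 := tendsto_pow_atTop_nhds_zero_of_lt_one hρ0 hρ1
    have h4 : Tendsto (fun k : ℕ => 1 / ((k : ℝ) + 1)) atTop (𝓝 0) :=
      tendsto_one_div_add_atTop_nhds_zero_nat
    simpa using (h2.add h3).add h4
  rw [Metric.tendsto_atTop]
  intro e he
  obtain ⟨k, hk⟩ := (hr.eventually (gt_mem_nhds (half_pos he))).exists
  obtain ⟨f, hf, hbd⟩ := hω k
  have h5 : Tendsto (fun N : ℕ => f N + K k / N) atTop (𝓝 0) := by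
    have := hf.add (tendsto_const_div_atTop_nhds_zero_nat (K k))
    simpa using this
  obtain ⟨N0, hN0⟩ := eventually_atTop.1 (h5.eventually (gt_mem_nhds (half_pos he)))
  refine ⟨max N0 1, fun N hN => ?_⟩
  have h6 := hN0 N ((le_max_left _ _).trans hN)
  have h7 := hbd N ((le_max_right _ _).trans hN)
  rw [dist_zero_right, Real.norm_eq_abs, abs_of_nonneg (by positivity)]
  linarith

end Pool.Agent.R739.RM
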