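import Mathlib
import Pool.Agent.R739.RM.Avg
import Pool.Agent.R739.RD.Dig

/-!
# Random digits: decay of the characteristic functions
-/

set_option autoImplicit false

open Finset Filter Topology MeasureTheory ProbabilityTheory
open scoped Real

namespace Pool.Agent.R739.RM

open Pool.Agent.R739.RD hiding bad card_bad small_of_good mom_le moment dec_of_atoms dec_int
  dec_real rho_lt rho_nonneg
open Pool.Agent.H534R3.UDist

/-- decay of the characteristic function from a pair of atoms -/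
theorem atom_decay {Ω : Type} [MeasurableSpace Ω] (P : Measure Ω) [IsProbabilityMeasure P]
    (ε : ℝ) (hε : 0 < ε) (X : Ω → ℝ) (hX : Measurable X)
    (c : ℝ) (hc : 0 < c) (H : ℕ) (hH : 1 ≤ H) (lam x l : ℝ) (h : ℤ) (hl : l ≠ 0)
    (hhl : (h : ℝ) * l = lam) (hh : |(h : ℝ)| ≤ H)
    (h2 : c ≤ P.real {ω | X ω = x}) (h3 : c ≤ P.real {ω | X ω = x + l})
    (t : ℝ) (ht : ε ≤ dz (lam * t)) :
    ‖∫ ω, ee (t * X ω) ∂P‖ ≤ 1 - 4 * c * (ε / H) ^ 2 := by
  have hH0 : (0 : ℝ) < H := by exact_mod_cast hH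
  have hmap : ∀ y : ℝ, (P.map X).real {y} = P.real {ω | X ω = y} := by
    intro y
    rw [map_measureReal_apply hX (measurableSet_singleton y)]
    rfl
  have : IsProbabilityMeasure (P.map X) := Measure.isProbabilityMeasure_map hX.aemeasurable
  have h4 := two_atoms (P.map X) x l c t hl hc
    (by rw [hmap]; exact h2) (by rw [hmap]; exact h3)
  have h5 : ∫ ω, ee (t * X ω) ∂P = ∫ y, ee (t * y) ∂(P.map X) := by
    have hm : AEStronglyMeasurable (fun y : ℝ => ee (t * y)) (P.map X) :=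
      (measurable_ee.comp (measurable_id.const_mul _)).aestronglyMeasurable
    rw [integral_map hX.aemeasurable hm]
  rw [h5]
  refine h4.trans ?_
  have h7 : lam * t = h * (t * l) := by
    rw [← hhl]
    ring
  rw [h7] at ht
  have h8 := ht.trans (dz_int_mul h (t * l))
  have h9 : ε ≤ H * dz (t * l) :=
    h8.trans (mul_le_mul_of_nonneg_right hh (dz_nonneg _))
  set d := dz (t * l) with hd
  have hd0 : 0 ≤ d := dz_nonneg _
  have h10 : ε / H ≤ d := by
    rw [div_le_iff₀ hH0]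
    linarith
  have h11 : (ε / H) ^ 2 ≤ d ^ 2 := pow_le_pow_left₀ (by positivity) h10 2
  have h13 : 4 * c * (ε / H) ^ 2 ≤ 4 * c * d ^ 2 :=
    mul_le_mul_of_nonneg_left h11 (by positivity)
  linarith

lemma rho_lt (c ε H : ℝ) (hc : 0 < c) (hε : 0 < ε) (hH : 0 < H) : 1 - 4 * c * (ε / H) ^ 2 < 1 := by
  have : 0 < 4 * c * (ε / H) ^ 2 := by positivity
  linarith

lemma rho_nonneg (c ε H : ℝ) (hc0 : 0 < c) (hc : c ≤ 1) (hε0 : 0 < ε) (hε : ε ≤ 1 / 2)
    (hH : 1 ≤ H) : 0 ≤ 1 - 4 * c * (ε / H) ^ 2 := by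
  have h1 : ε / H ≤ 1 / 2 := (div_le_self hε0.le hH).trans hε
  have h2 : 0 ≤ ε / H := by positivity
  have h3 : (ε / H) ^ 2 ≤ 1 / 4 := by nlinarith
  nlinarith

/-- integer digits -/
theorem dd_int {Ω : Type} [MeasurableSpace Ω] (P : Measure Ω) [IsProbabilityMeasure P]
    (b : ℕ) (hb : 2 ≤ b) (M : ℕ) (c : ℝ) (hc : 0 < c) (D : ℕ → Ω → ℝ)
    (hD : ∀ j, Measurable (D j)) (hZD : ∀ j ω, ∃ d : ℤ, D j ω = d)
    (hM : ∀ j ω, |D j ω| ≤ M) (hcD : ∀ j d, P.real {ω | D j ω = d} ≤ 1 - c) :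
    ∃ lam ρ : ℝ, lam ≠ 0 ∧ 0 ≤ ρ ∧ ρ < 1 ∧ DD P D b lam ρ := by
  classical
  have hb2 : (2 : ℝ) ≤ b := by exact_mod_cast hb
  have hb0 : (0 : ℝ) < b := by linarith
  set ε : ℝ := 1 / (2 * (b : ℝ)) with hεdef
  have hε : 0 < ε := by positivity
  have hε2 : ε ≤ 1 / 2 := by
    rw [hεdef, div_le_div_iff₀ (by positivity) (by norm_num)]
    linarith
  set F : Finset ℝ := (Icc (-(M : ℤ)) M).image (fun n : ℤ => (n : ℝ)) with hF
  have hFm : ∀ j ω, D j ω ∈ F := fun j ω => by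
    obtain ⟨d, hd⟩ := hZD j ω
    rw [hF, mem_image]
    refine ⟨d, ?_, hd.symm⟩
    have h1 := hM j ω
    rw [hd] at h1
    have h2 : |d| ≤ (M : ℤ) := by exact_mod_cast h1
    rw [mem_Icc]
    exact abs_le.1 h2
  have hFne : F.Nonempty := by
    rw [hF, image_nonempty]
    exact ⟨0, by rw [mem_Icc]; constructor <;> omega⟩
  have hFc : (0 : ℝ) < F.card := by exact_mod_cast hFne.card_pos
  have hFc1 : (1 : ℝ) ≤ F.card := by exact_mod_cast hFne.card_pos
  have hc1 : c ≤ 1 := by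
    have h1 := hcD 0 0
    have h2 : 0 ≤ P.real {ω | D 0 ω = 0} := measureReal_nonneg
    linarith
  set H : ℕ := (2 * M).factorial with hH
  have hH1 : 1 ≤ H := Nat.factorial_pos _
  have hH1' : (1 : ℝ) ≤ H := by exact_mod_cast hH1
  refine ⟨H, 1 - 4 * (c / F.card) * (ε / H) ^ 2, by positivity, ?_, ?_, ?_⟩
  · apply rho_nonneg _ _ _ (by positivity) _ hε hε2 hH1'
    exact (div_le_self hc.le hFc1).trans hc1
  · exact rho_lt _ _ _ (by positivity) hε (by linarith)
  · intro j t ht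
    obtain ⟨x', hx', y', hy', hxy, h1, h2⟩ := atoms P (D j) (hD j) F (hFm j) c hc (hcD j)
    rw [hF, mem_image] at hx' hy'
    obtain ⟨x, hx, rfl⟩ := hx'
    obtain ⟨y, hy, rfl⟩ := hy'
    rw [mem_Icc] at hx hy
    have hxy' : x ≠ y := fun h => hxy (by rw [h])
    have hl : y - x ≠ 0 := sub_ne_zero.2 hxy'.symm
    have hdvd : (y - x) ∣ (H : ℤ) := by
      rw [← Int.natAbs_dvd_natAbs]
      rw [Int.natAbs_natCast, hH]
      apply Nat.dvd_factorial
      · exact Int.natAbs_pos.2 hl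
      · omega
    obtain ⟨h, hh⟩ := hdvd
    have hHi : (1 : ℤ) ≤ H := by exact_mod_cast hH1
    refine atom_decay P ε hε (D j) (hD j) (c / F.card) (by positivity) H hH1 H x
      ((y - x : ℤ) : ℝ) h (by exact_mod_cast hl) ?_ ?_ h1 ?_ t ht
    · rw [mul_comm]
      exact_mod_cast hh.symm
    · have h3 : |h| ≤ H := by
        have h4 : h ∣ (H : ℤ) := ⟨y - x, by rw [hh]; ring⟩
        have := Int.le_of_dvd (by omega) ((abs_dvd h (H : ℤ)).2 h4)
        exact this
      have : ((|h| : ℤ) : ℝ) ≤ ((H : ℤ) : ℝ) := by exact_mod_cast h3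
      push_cast at this
      exact this
    · have e : (x : ℝ) + ((y - x : ℤ) : ℝ) = y := by push_cast; ring
      rw [e]
      exact h2

/-- identically distributed digits with two atoms -/
theorem dd_real {Ω : Type} [MeasurableSpace Ω] (P : Measure Ω) [IsProbabilityMeasure P]
    (b : ℕ) (hb : 2 ≤ b) (D : ℕ → Ω → ℝ)
    (hD : ∀ j, Measurable (D j)) (hid : ∀ j, IdentDistrib (D j) (D 0) P P)
    (x y : ℝ) (hxy : x ≠ y) (hx : 0 < P.real {ω | D 0 ω = x}) (hy : 0 < P.real {ω | D 0 ω = y}) :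
    ∃ lam ρ : ℝ, lam ≠ 0 ∧ 0 ≤ ρ ∧ ρ < 1 ∧ DD P D b lam ρ := by
  have hb2 : (2 : ℝ) ≤ b := by exact_mod_cast hb
  have hb0 : (0 : ℝ) < b := by linarith
  set ε : ℝ := 1 / (2 * (b : ℝ)) with hεdef
  have hε : 0 < ε := by positivity
  have hε2 : ε ≤ 1 / 2 := by
    rw [hεdef, div_le_div_iff₀ (by positivity) (by norm_num)]
    linarith
  set c : ℝ := min (P.real {ω | D 0 ω = x}) (P.real {ω | D 0 ω = y}) with hc
  have hc0 : 0 < c := lt_min hx hy
  have hc1 : c ≤ 1 := (min_le_left _ _).trans measureReal_le_one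
  refine ⟨y - x, 1 - 4 * c * (ε / ((1 : ℕ) : ℝ)) ^ 2, sub_ne_zero.2 hxy.symm, ?_, ?_, ?_⟩
  · exact rho_nonneg _ _ _ hc0 hc1 hε hε2 (by norm_num)
  · exact rho_lt _ _ _ hc0 hε (by norm_num)
  · intro j t ht
    refine atom_decay P ε hε (D j) (hD j) c hc0 1 le_rfl (y - x) x (y - x) 1
      (sub_ne_zero.2 hxy.symm) (by simp) (by simp) ?_ ?_ t ht
    · have h3 := (hid j).measure_mem_eq (measurableSet_singleton x)
      have h4 : P.real {ω | D j ω = x} = P.real {ω | D 0 ω = x} := by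
        simp only [Measure.real]
        congr 1
      rw [h4]
      exact min_le_left _ _
    · have e : x + (y - x) = y := by ring
      rw [e]
      have h3 := (hid j).measure_mem_eq (measurableSet_singleton y)
      have h4 : P.real {ω | D j ω = y} = P.real {ω | D 0 ω = y} := by
        simp only [Measure.real]
        congr 1
      rw [h4]
      exact min_le_right _ _

end Pool.Agent.R739.RM
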