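import Mathlib
import Pool.Agent.R739.RM.Dig
import Pool.Agent.R739.RW.FinZ

/-!
# Equidistribution of `η ξ α ^ n` with predictable weights and shifts
-/

set_option autoImplicit false

open Finset Filter Topology MeasureTheory ProbabilityTheory
open scoped Real

namespace Pool.Agent.R739.RM

open Pool.Agent.R739.RD (ee_add measurable_ee mF_coe equi_of_weyl EquiTorus)
open Pool.Agent.R739.RW (weyl_torus_w wav Digits)
open Pool.Agent.H534R3.UDist Pool.Agent.H446R3.SK

/-- powers of a transcendental number are linearly independent -/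
lemma lin_pow (α : ℝ) (hα : Transcendental ℚ α) (m : ℕ) (η : ℝ) (hη : η ≠ 0) :
    LinearIndependent ℚ (fun i : Fin m => η * α ^ (i : ℕ)) := by
  rw [Fintype.linearIndependent_iff]
  intro g hg i
  set p : Polynomial ℚ := ∑ j : Fin m, Polynomial.monomial (j : ℕ) (g j) with hp
  have h1 : Polynomial.aeval α p = 0 := by
    rw [hp, map_sum]
    simp only [Polynomial.aeval_monomial]
    have h2 : ∑ j : Fin m, g j • (η * α ^ (j : ℕ)) =
        η * ∑ j : Fin m, (algebraMap ℚ ℝ) (g j) * α ^ (j : ℕ) := by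
      rw [mul_sum]
      refine sum_congr rfl fun j _ => ?_
      rw [Algebra.smul_def]
      ring
    rw [h2] at hg
    rcases mul_eq_zero.1 hg with h3 | h3
    · exact absurd h3 hη
    · exact h3
  have h2 : p = 0 := by
    by_contra hne
    exact hα ⟨p, hne, h1⟩
  have h3 : p.coeff i = g i := by
    rw [hp, Polynomial.finsetSum_coeff]
    rw [Finset.sum_eq_single i]
    · rw [Polynomial.coeff_monomial, if_pos rfl]
    · intro j _ hj
      rw [Polynomial.coeff_monomial, if_neg]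
      intro h
      exact hj (Fin.ext h)
    · intro h
      exact absurd (mem_univ i) h
  rw [← h3, h2, Polynomial.coeff_zero]

/-- the conclusions with predictable weights and shifts -/
def ConclusionP {Ω : Type} [MeasurableSpace Ω] (P : Measure Ω) (D : ℕ → Ω → ℝ) (α κ : ℝ)
    (ξ : Ω → ℝ) : Prop :=
  (∀ (m : ℕ) (η : Fin m → ℝ), LinearIndependent ℚ η → ∀ (Z : ℕ → Ω → ℂ) (Θ : ℕ → Ω → Fin m → ℝ),
    (∀ n ω, ‖Z n ω‖ ≤ 1) → (∀ n : ℕ, Measurable[Before D (κ * n)] (Z n)) →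
    (∀ n : ℕ, Measurable[Before D (κ * n)] (Θ n)) →
    ∀ᵐ ω ∂P, ∀ f : C(Fin m → UnitAddCircle, ℂ), Tendsto (fun N : ℕ => (∑ n ∈ Icc 1 N, Z n ω *
      (f (fun i => ((η i * ξ ω * α ^ n + Θ n ω i : ℝ) : UnitAddCircle)) - ∫ y, f y)) / (N : ℂ))
      atTop (𝓝 0)) ∧
  (∀ η : ℝ, η ≠ 0 → ∀ Θ : ℕ → Ω → ℝ, (∀ n : ℕ, Measurable[Before D (κ * n)] (Θ n)) →
    ∀ᵐ ω ∂P, Pool.Agent.R739.RD.Equi (fun n => η * ξ ω * α ^ n + Θ n ω))

theorem conclusionP_of {Ω : Type} [MeasurableSpace Ω] (P : Measure Ω)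
    [IsProbabilityMeasure P] (D : ℕ → Ω → ℝ) (α κ : ℝ) (ξ : Ω → ℝ)
    (H : ∀ (Z : ℕ → Ω → ℂ), (∀ n : ℕ, Measurable[Before D (κ * n)] (Z n)) →
      (∀ n ω, ‖Z n ω‖ ≤ 1) → ∀ a : ℝ, a ≠ 0 →
      ∀ᵐ ω ∂P, Tendsto (fun N : ℕ => ‖∑ n ∈ Icc 1 N, Z n ω * ee (a * α ^ n * ξ ω)‖ / N)
        atTop (𝓝 0)) :
    ConclusionP P D α κ ξ := by
  refine ⟨?_, ?_⟩
  · intro m η hη Z Θ hZ1 hZ hΘ
    have h1 : ∀ k : Fin m → ℤ, ∀ᵐ ω ∂P, k ≠ 0 → Tendsto (fun N : ℕ => (∑ n ∈ Icc 1 N, Z n ω *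
        mF k (fun i => ((η i * ξ ω * α ^ n + Θ n ω i : ℝ) : UnitAddCircle))) / (N : ℂ)) atTop
        (𝓝 0) := by
      intro k
      by_cases hk : k ≠ 0
      · have ha : (∑ i, k i * η i) ≠ 0 := by
          intro h0
          apply hk
          rw [Fintype.linearIndependent_iff] at hη
          have h2 := hη (fun i => (k i : ℚ)) (by
            rw [← h0]
            refine sum_congr rfl fun i _ => ?_
            rw [Algebra.smul_def]
            simp)
          funext i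
          have := h2 i
          simpa using this
        have hm : ∀ n : ℕ, Measurable[Before D (κ * n)]
            fun ω => Z n ω * ee (∑ i, k i * Θ n ω i) := by
          intro n
          refine (hZ n).mul (measurable_ee.comp ?_)
          refine @Finset.measurable_fun_sum _ _ _ _ _ _ (Before D (κ * n)) _ _ fun i _ => ?_
          exact ((measurable_pi_apply i).comp (hΘ n)).const_mul _
        have h1 : ∀ (n : ℕ) (ω : Ω), ‖Z n ω * ee (∑ i, k i * Θ n ω i)‖ ≤ 1 := by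
          intro n ω
          rw [norm_mul, norm_ee, mul_one]
          exact hZ1 n ω
        filter_upwards [H (fun n ω => Z n ω * ee (∑ i, k i * Θ n ω i)) hm h1
          (∑ i, k i * η i) ha] with ω hω _
        rw [tendsto_zero_iff_norm_tendsto_zero]
        refine hω.congr fun N => ?_
        rw [norm_div, Complex.norm_natCast]
        congr 2
        refine sum_congr rfl fun n _ => ?_
        rw [mF_coe, mul_assoc, ← ee_add]
        congr 2
        rw [sum_mul, sum_mul, ← sum_add_distrib]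
        refine sum_congr rfl fun i _ => ?_
        ring
      · exact Eventually.of_forall fun ω h => absurd h hk
    filter_upwards [ae_all_iff.2 h1] with ω hω
    intro f
    exact weyl_torus_w (fun n => Z n ω) (fun n => hZ1 n ω) _ (fun k hk => hω k hk) f
  · intro η hη Θ hΘ
    have h1 : ∀ h : ℕ, ∀ᵐ ω ∂P, 1 ≤ h → Tendsto (fun N : ℕ =>
        ‖∑ n ∈ Icc 1 N, ee (h * (η * ξ ω * α ^ n + Θ n ω))‖ / N) atTop (𝓝 0) := by
      intro h
      by_cases hh : 1 ≤ h
      · have hh0 : (h : ℝ) ≠ 0 := by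
          have : h ≠ 0 := by omega
          exact_mod_cast this
        filter_upwards [H (fun n ω => ee (h * Θ n ω))
          (fun n => measurable_ee.comp ((hΘ n).const_mul _)) (fun n ω => (norm_ee _).le)
          (h * η) (mul_ne_zero hh0 hη)] with ω hω _
        refine hω.congr fun N => ?_
        congr 2
        refine sum_congr rfl fun n _ => ?_
        rw [← ee_add]
        congr 1
        ring
      · exact Eventually.of_forall fun ω h => absurd h hh
    filter_upwards [ae_all_iff.2 h1] with ω hω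
    exact equi_of_weyl _ fun k hk => hω k hk

/-- complete equidistribution -/
theorem complete_of {Ω : Type} [MeasurableSpace Ω] (P : Measure Ω)
    (D : ℕ → Ω → ℝ) (α κ : ℝ) (hα : Transcendental ℚ α) (ξ : Ω → ℝ)
    (H : ConclusionP P D α κ ξ) (η : ℝ) (hη : η ≠ 0) (θ : ℕ → ℝ) :
    ∀ᵐ ω ∂P, ∀ m : ℕ, EquiTorus fun n (i : Fin m) =>
      η * ξ ω * α ^ (n + (i : ℕ)) + θ (n + i) := by
  rw [ae_all_iff]
  intro m
  filter_upwards [H.1 m (fun i => η * α ^ (i : ℕ)) (lin_pow α hα m η hη)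
    (fun _ _ => 1) (fun n _ i => θ (n + i)) (fun _ _ => by simp)
    (fun n => measurable_const) (fun n => measurable_const)] with ω hω
  intro f
  have h4 := (hω f).add_const (∫ y, f y)
  rw [zero_add] at h4
  refine h4.congr' ?_
  filter_upwards [eventually_gt_atTop 0] with N hN
  have hN0 : (N : ℂ) ≠ 0 := by exact_mod_cast hN.ne'
  have e1 : (∑ n ∈ Icc 1 N, (1 : ℂ) * (f (fun i : Fin m => ((η * α ^ (i : ℕ) * ξ ω *
      α ^ n + θ (n + i) : ℝ) : UnitAddCircle)) - ∫ y, f y)) =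
      (∑ n ∈ Icc 1 N, f (fun i : Fin m => ((η * ξ ω * α ^ (n + (i : ℕ)) +
      θ (n + i) : ℝ) : UnitAddCircle))) - N * ∫ y, f y := by
    simp only [one_mul]
    rw [sum_sub_distrib]
    congr 1
    · refine sum_congr rfl fun n _ => ?_
      congr 1
      funext i
      congr 1
      rw [pow_add]
      ring
    · simp
  rw [e1, sub_div, mul_div_cancel_left₀ _ hN0]
  ring

theorem main {Ω : Type} [MeasurableSpace Ω] (P : Measure Ω) [IsProbabilityMeasure P]
    (b : ℕ) (hb : 2 ≤ b) (D : ℕ → Ω → ℝ) (hD : Digits P D) (α : ℝ) (hα : 1 < α)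
    (hS : Sparse α b) (κ : ℝ) (hκ : κ < Real.log α / Real.log b) :
    ConclusionP P D α κ fun ω => ∑' j, D j ω / (b : ℝ) ^ (j + 1) := by
  have hb2 : (2 : ℝ) ≤ b := by exact_mod_cast hb
  obtain ⟨hDm, hI, ⟨M, hM⟩, hat⟩ := hD
  have hsum : ∀ ω, Summable fun j => D j ω / (b : ℝ) ^ (j + 1) := fun ω =>
    Pool.Agent.R739.RP.summable_digits b (by linarith) M _ fun j => hM j ω
  have hs : ∀ ω, Tendsto (fun n => Xi D b n ω) atTop
      (𝓝 (∑' j, D j ω / (b : ℝ) ^ (j + 1))) := fun ω => (hsum ω).hasSum.tendsto_sum_nat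
  have hdd : ∃ lam ρ : ℝ, lam ≠ 0 ∧ 0 ≤ ρ ∧ ρ < 1 ∧ DD P D b lam ρ := by
    rcases hat with ⟨hZD, c, hc, hcD⟩ | ⟨hid, x, y, hxy, hx, hy⟩
    · refine dd_int P b hb ⌈M⌉₊ c hc D hDm hZD (fun j ω => ?_) hcD
      exact (hM j ω).trans (Nat.le_ceil M)
    · exact dd_real P b hb D hDm hid x y hxy hx hy
  obtain ⟨lam, ρ, hlam, hρ0, hρ1, hdd⟩ := hdd
  exact conclusionP_of P D α κ _ fun Z hZ hZ1 a ha =>
    ae_avg P D hDm hI M hM b hb _ hs lam ρ hlam hρ0 hρ1 hdd α hα hS κ hκ Z hZ hZ1 a ha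

end Pool.Agent.R739.RM
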