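import Mathlib
import Pool.Agent.R739.RM.Fin
import Pool.Agent.R980.RM_CA
import Pool.Agent.R46.RM_CB

/-!
# Random tails of configurations
-/

set_option autoImplicit false

open Finset Filter Topology MeasureTheory ProbabilityTheory
open scoped Real

namespace Pool.Agent.R739.RM

open Pool.Agent.H429R2.Auto Pool.Agent.R544.PQ
open Pool.Agent.R739.RW (Digits)

/-- `x0` with the digits at the positions `i ≥ i0` replaced -/
def splice (x0 : Conf) (i0 : ℤ) (d : ℕ → Fin 6) : Conf :=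
  fun i => if i < i0 then x0 i else d (i - i0).toNat

/-- almost surely infinitely many digits are not `5` -/
lemma ae_ne_five {Ω : Type} [MeasurableSpace Ω] (P : Measure Ω) [IsProbabilityMeasure P]
    (D : ℕ → Ω → Fin 6) (hD : ∀ j, Measurable (D j)) (hI : iIndepFun D P) (c : ℝ) (hc : 0 < c)
    (hcD : ∀ j d, P.real {ω | D j ω = d} ≤ 1 - c) :
    ∀ᵐ ω ∂P, ∀ m : ℕ, ∃ j, m ≤ j ∧ D j ω ≠ 5 := by
  rw [ae_all_iff]
  intro m
  have hc1 : 0 ≤ 1 - c := (measureReal_nonneg (μ := P) (s := {ω | D 0 ω = 0})).trans (hcD 0 0)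
  have h1 : ∀ k : ℕ, P.real {ω | ∀ j, m ≤ j → D j ω = 5} ≤ (1 - c) ^ k := by
    intro k
    have h2 := hI.measure_inter_preimage_eq_mul (Ico m (m + k)) (sets := fun _ => {5})
      (fun i _ => measurableSet_singleton _)
    have h3 : P.real (⋂ i ∈ Ico m (m + k), D i ⁻¹' {5}) =
        ∏ i ∈ Ico m (m + k), P.real (D i ⁻¹' {5}) := by
      simp only [Measure.real]
      rw [h2, ENNReal.toReal_prod]
    calc P.real {ω | ∀ j, m ≤ j → D j ω = 5} ≤ P.real (⋂ i ∈ Ico m (m + k), D i ⁻¹' {5}) := by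
          apply measureReal_mono _ (measure_ne_top _ _)
          intro ω hω
          simp only [Set.mem_iInter, Set.mem_preimage, Set.mem_singleton_iff]
          intro i hi
          exact hω i (mem_Ico.1 hi).1
      _ = ∏ i ∈ Ico m (m + k), P.real (D i ⁻¹' {5}) := h3
      _ ≤ ∏ i ∈ Ico m (m + k), (1 - c) :=
          Finset.prod_le_prod (fun i _ => measureReal_nonneg) fun i _ => hcD i 5
      _ = (1 - c) ^ k := by simp
  have h2 : P.real {ω | ∀ j, m ≤ j → D j ω = 5} = 0 := by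
    have h3 := tendsto_pow_atTop_nhds_zero_of_lt_one hc1 (by linarith : 1 - c < 1)
    exact le_antisymm (ge_of_tendsto' h3 h1) measureReal_nonneg
  rw [ae_iff]
  have h3 : {ω | ¬ ∃ j, m ≤ j ∧ D j ω ≠ 5} = {ω | ∀ j, m ≤ j → D j ω = 5} := by
    ext ω
    simp only [Set.mem_ofPred_eq]
    push Not
    rfl
  rw [h3]
  exact (measureReal_eq_zero_iff (measure_ne_top _ _)).1 h2

lemma digits_of {Ω : Type} [MeasurableSpace Ω] (P : Measure Ω) [IsProbabilityMeasure P]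
    (D : ℕ → Ω → Fin 6) (hD : ∀ j, Measurable (D j)) (hI : iIndepFun D P) (c : ℝ) (hc : 0 < c)
    (hcD : ∀ j d, P.real {ω | D j ω = d} ≤ 1 - c) :
    Digits P (fun j ω => (((D j ω : Fin 6) : ℕ) : ℝ)) := by
  have hc1 : 0 ≤ 1 - c := (measureReal_nonneg (μ := P) (s := {ω | D 0 ω = 0})).trans (hcD 0 0)
  refine ⟨fun j => (measurable_from_top (f := fun d : Fin 6 => ((d : ℕ) : ℝ))).comp (hD j),
    hI.comp (fun _ (d : Fin 6) => ((d : ℕ) : ℝ)) fun _ => measurable_from_top, ⟨6, fun j ω => ?_⟩,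
    Or.inl ⟨fun j ω => ⟨((D j ω : ℕ) : ℤ), by simp⟩, c, hc, fun j d => ?_⟩⟩
  · have h1 : ((D j ω : Fin 6) : ℕ) ≤ 6 := (D j ω).isLt.le
    show |(((D j ω : Fin 6) : ℕ) : ℝ)| ≤ 6
    rw [abs_of_nonneg (Nat.cast_nonneg _)]
    exact_mod_cast h1
  · by_cases hd : ∃ e : Fin 6, ((e : ℕ) : ℝ) = d
    · obtain ⟨e, rfl⟩ := hd
      have : {ω | (((D j ω : Fin 6) : ℕ) : ℝ) = ((e : ℕ) : ℝ)} = {ω | D j ω = e} := by
        ext ω
        simp only [Set.mem_ofPred_eq, Nat.cast_inj]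
        exact Fin.val_inj
      rw [this]
      exact hcD j e
    · have : {ω | (((D j ω : Fin 6) : ℕ) : ℝ) = d} = ∅ := by
        ext ω
        simp only [Set.mem_ofPred_eq, Set.mem_empty_iff_false, iff_false]
        intro h
        exact hd ⟨D j ω, h⟩
      rw [this]
      simpa using hc1

lemma summable_six (a : ℕ → Fin 6) (i : ℤ) :
    Summable fun k : ℕ => ((a k : ℕ) : ℝ) / (6 : ℝ) ^ (i + k) := by
  have h1 : Summable fun k : ℕ => 6 * ((6 : ℝ) ^ i)⁻¹ * (1 / 6 : ℝ) ^ k :=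
    (summable_geometric_of_lt_one (by norm_num) (by norm_num)).mul_left _
  refine Summable.of_nonneg_of_le (fun k => by positivity) (fun k => ?_) h1
  rw [zpow_add₀ (by norm_num), zpow_natCast]
  have h2 : ((a k : ℕ) : ℝ) ≤ 6 := by exact_mod_cast (a k).isLt.le
  calc ((a k : ℕ) : ℝ) / ((6 : ℝ) ^ i * 6 ^ k) ≤ 6 / ((6 : ℝ) ^ i * 6 ^ k) := by
        gcongr
    _ = _ := by
        rw [one_div, inv_pow]
        field_simp

/-- all frequencies imply density -/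
lemma dense_of_words (x : Conf) (h : ∀ (j : ℤ) (L : ℕ) (w : Fin L → Fin 6),
    ∃ n : ℕ, Shows (F^[n] x) w j) : Dense (orbit x) := by
  rw [dense_iff_inter_open]
  intro U hU ⟨w, hw⟩
  rw [isOpen_pi_iff] at hU
  obtain ⟨I, u, hu1, hu2⟩ := hU w hw
  obtain ⟨M, hM⟩ : ∃ M : ℕ, ∀ i ∈ I, i.natAbs ≤ M :=
    ⟨I.sup Int.natAbs, fun i hi => Finset.le_sup (f := Int.natAbs) hi⟩
  obtain ⟨n, hn⟩ := h (-(M : ℤ)) (2 * M + 1) fun s => w (-(M : ℤ) + (s : ℕ))
  refine ⟨F^[n] x, ?_, n, rfl⟩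
  apply hu2
  intro i hi
  have h1 := hM i hi
  obtain ⟨r, hr⟩ := Int.eq_ofNat_of_zero_le (show (0 : ℤ) ≤ i + M by omega)
  have hr2 : r < 2 * M + 1 := by omega
  have h2 := hn ⟨r, hr2⟩
  simp only at h2
  have h3 : i = -(M : ℤ) + r := by omega
  have h4 : F^[n] x i = w i := by
    rw [h3]
    exact h2
  show F^[n] x i ∈ u i
  rw [h4]
  exact (hu1 i hi).2

open Classical in
theorem tails (x0 : Conf) (i1 : ℤ) (hx0 : ∀ i < i1, x0 i = 0) (i0 : ℤ)
    {Ω : Type} [MeasurableSpace Ω] (P : Measure Ω) [IsProbabilityMeasure P]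
    (D : ℕ → Ω → Fin 6) (hD : ∀ j, Measurable (D j)) (hI : iIndepFun D P) (c : ℝ) (hc : 0 < c)
    (hcD : ∀ j d, P.real {ω | D j ω = d} ≤ 1 - c) :
    ∀ᵐ ω ∂P, (∀ (j : ℤ) (L : ℕ) (w : Fin L → Fin 6),
      Tendsto (fun N : ℕ => (((Icc 1 N).filter
        (fun n : ℕ => Shows (F^[n] (splice x0 i0 fun k => D k ω)) w j)).card : ℝ) / (N : ℝ)) atTop
        (𝓝 (1 / 6 ^ L))) ∧ Dense (orbit (splice x0 i0 fun k => D k ω)) := by
  -- the common left end
  obtain ⟨i2, hi21, hi20⟩ : ∃ i2 : ℤ, i2 ≤ i1 ∧ i2 ≤ i0 :=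
    ⟨min i1 i0, min_le_left _ _, min_le_right _ _⟩
  obtain ⟨K, hK⟩ := Int.eq_ofNat_of_zero_le (sub_nonneg.2 hi20)
  set β0 : ℝ := ∑ k ∈ range K, ((x0 (i2 + k) : ℕ) : ℝ) / (6 : ℝ) ^ (i2 + k) with hβ0
  have hβ0' : 0 ≤ β0 := Finset.sum_nonneg fun k _ => by positivity
  set D' : ℕ → Ω → ℝ := fun j ω => (((D j ω : Fin 6) : ℕ) : ℝ) with hD'
  set ξ : Ω → ℝ := fun ω => ∑' j, D' j ω / ((6 : ℕ) : ℝ) ^ (j + 1) with hξ
  have hS : Sparse (3 / 2 : ℝ) 6 := by
    have := sparse_rat 3 2 le_rfl (by norm_num) (by norm_num) 6 (by norm_num)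
    simpa using this
  have hκ : (0 : ℝ) < Real.log (3 / 2) / Real.log ((6 : ℕ) : ℝ) :=
    div_pos (Real.log_pos (by norm_num)) (Real.log_pos (by norm_num))
  have hmain := main P 6 (by norm_num) D' (digits_of P D hD hI c hc hcD) (3 / 2) (by norm_num)
    hS 0 hκ
  have hfreq : ∀ j : ℤ, ∀ᵐ ω ∂P, Pool.Agent.R739.RD.Equi (fun n =>
      (6 : ℝ) ^ (j - i0) * ξ ω * (3 / 2) ^ n + 6 ^ (j - 1) * ((3 / 2) ^ n * β0)) := by
    intro j
    exact hmain.2 ((6 : ℝ) ^ (j - i0)) (by positivity)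
      (fun n _ => 6 ^ (j - 1) * ((3 / 2) ^ n * β0)) fun n => measurable_const
  filter_upwards [ae_all_iff.2 hfreq, ae_ne_five P D hD hI c hc hcD] with ω h1 h2
  set x : Conf := splice x0 i0 fun k => D k ω with hx
  -- the number of the configuration
  have hxa : ∀ i < i2, x i = 0 := by
    intro i hi
    rw [hx]
    unfold splice
    rw [if_pos (by omega)]
    exact hx0 i (by omega)
  have hx5 : ∀ m : ℤ, ∃ i : ℤ, m ≤ i ∧ x i ≠ 5 := by
    intro m
    obtain ⟨j, hj, hj5⟩ := h2 (m - i0).toNat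
    refine ⟨i0 + j, by omega, ?_⟩
    rw [hx]
    unfold splice
    rw [if_neg (by omega)]
    have : (i0 + (j : ℤ) - i0).toNat = j := by omega
    rw [this]
    exact hj5
  have hconf := Pool.Agent.R46.RM_CB x i2 hxa hx5
  set β : ℝ := ∑' k : ℕ, ((x (i2 + k) : ℕ) : ℝ) / (6 : ℝ) ^ (i2 + k) with hβ
  have hβeq : β = β0 + 6 ^ (1 - i0) * ξ ω := by
    have hs := summable_six (fun k => x (i2 + k)) i2
    rw [hβ, ← hs.sum_add_tsum_nat_add K, hβ0]
    congr 1
    · refine sum_congr rfl fun k hk => ?_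
      rw [mem_range] at hk
      have : x (i2 + k) = x0 (i2 + k) := by
        rw [hx]
        unfold splice
        rw [if_pos (by omega)]
      rw [this]
    · rw [hξ, ← tsum_mul_left]
      refine tsum_congr fun k => ?_
      have e1 : x (i2 + ((k + K : ℕ) : ℤ)) = D k ω := by
        rw [hx]
        unfold splice
        rw [if_neg (by push_cast; omega)]
        congr 1
        push_cast
        omega
      rw [e1, hD']
      have e2 : i2 + ((k + K : ℕ) : ℤ) = (i0 - 1) + ((k + 1 : ℕ) : ℤ) := by push_cast; omega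
      rw [e2, zpow_add₀ (by norm_num), zpow_natCast, show (1 - i0 : ℤ) = -(i0 - 1) by ring,
        zpow_neg]
      push_cast
      field_simp
  have hβ' : 0 ≤ β := tsum_nonneg fun k => by positivity
  have hfr : ∀ (j : ℤ) (L : ℕ) (w : Fin L → Fin 6),
      Tendsto (fun N : ℕ => (((Icc 1 N).filter
        (fun n : ℕ => Shows (F^[n] x) w j)).card : ℝ) / (N : ℝ)) atTop (𝓝 (1 / 6 ^ L)) := by
    intro j L w
    rw [hconf]
    refine Pool.Agent.R980.RM_CA β hβ' j ?_ L w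
    have h3 := h1 j
    have e : (fun n : ℕ => (6 : ℝ) ^ (j - 1) * ((3 / 2) ^ n * β)) = fun n : ℕ =>
        (6 : ℝ) ^ (j - i0) * ξ ω * (3 / 2) ^ n + 6 ^ (j - 1) * ((3 / 2) ^ n * β0) := by
      funext n
      rw [hβeq, show j - i0 = (j - 1) + (1 - i0) by ring, zpow_add₀ (by norm_num)]
      ring
    rw [e]
    exact h3
  refine ⟨hfr, dense_of_words x fun j L w => ?_⟩
  have h3 := hfr j L w
  by_contra hno
  push Not at hno
  have h4 : (fun N : ℕ => (((Icc 1 N).filter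
      (fun n : ℕ => Shows (F^[n] x) w j)).card : ℝ) / (N : ℝ)) = fun _ => 0 := by
    funext N
    have : (Icc 1 N).filter (fun n : ℕ => Shows (F^[n] x) w j) = ∅ :=
      filter_eq_empty_iff.2 fun n _ => hno n
    rw [this]
    simp
  rw [h4] at h3
  have h5 := tendsto_nhds_unique h3 tendsto_const_nhds
  have h6 : (0 : ℝ) < 1 / 6 ^ L := by positivity
  linarith

end Pool.Agent.R739.RM
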